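import Pool.Agent.V5helper81.ZN.Kill

/-!
The reversed dual of a complex of finitely generated free modules, and the independence of the
resolution.
-/

set_option autoImplicit false
set_option linter.unusedSectionVars false

open scoped Matrix

namespace Pool.Agent.V5helper81.ZN

/-- an involutive antiautomorphism of a ring -/
structure AI (R : Type) [Ring R] where
  f : R → R
  add : ∀ x y, f (x + y) = f x + f y
  mul : ∀ x y, f (x * y) = f y * f x
  inv : ∀ x, f (f x) = x

section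

variable {R : Type} [Ring R] {S : Type} [Ring S] (β : AI R)

lemma AI.zero : β.f 0 = 0 := by
  have h := β.add 0 0
  rw [add_zero] at h
  exact left_eq_add.1 h

lemma AI.sum {α : Type} (s : Finset α) (x : α → R) : β.f (∑ i ∈ s, x i) = ∑ i ∈ s, β.f (x i) :=
  map_sum (⟨⟨β.f, β.zero⟩, β.add⟩ : R →+ R) x s

/-- the dual matrix -/
def tr {m n : Type} (M : Matrix m n R) : Matrix n m R := Matrix.of fun j i => β.f (M i j)

lemma tr_mul {l m n : Type} [Fintype m] (M : Matrix l m R) (N : Matrix m n R) :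
    tr β (M * N) = tr β N * tr β M := by
  ext j i
  change β.f ((M * N) i j) = _
  rw [Matrix.mul_apply, Matrix.mul_apply, β.sum]
  exact Finset.sum_congr rfl fun k _ => β.mul _ _

lemma tr_zero {m n : Type} : tr β (0 : Matrix m n R) = 0 := by
  ext j i
  exact β.zero

lemma tr_map (βS : AI S) (φ : R →+* S) (hβ : ∀ r, φ (β.f r) = βS.f (φ r)) {m n : Type}
    (M : Matrix m n R) : (tr β M).map φ = tr βS (M.map φ) := by
  ext j i
  exact hβ _

lemma f_vecMul {m n : Type} [Fintype m] (x : m → R) (M : Matrix m n R) :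
    (fun i => β.f ((x ᵥ* M) i)) = tr β M *ᵥ fun i => β.f (x i) := by
  funext i
  change β.f (∑ k, x k * M k i) = ∑ k, β.f (M k i) * β.f (x k)
  rw [β.sum]
  exact Finset.sum_congr rfl fun k _ => β.mul _ _

lemma f_mulVec {m n : Type} [Fintype n] (x : n → R) (M : Matrix m n R) :
    (fun i => β.f ((M *ᵥ x) i)) = (fun i => β.f (x i)) ᵥ* tr β M := by
  funext i
  change β.f (∑ k, M i k * x k) = ∑ k, β.f (x k) * β.f (M i k)
  rw [β.sum]
  exact Finset.sum_congr rfl fun k _ => β.mul _ _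

lemma tr_tr {m n : Type} (M : Matrix m n R) : tr β (tr β M) = M := by
  ext i j
  exact β.inv _

/-! ### the reversed dual complex -/

/-- the bases of the reversed complex: `rι ι k n` is `ι (n - k)`, and empty for `k > n` -/
def rι (ι : ℕ → Type) : ℕ → ℕ → Type
  | 0, n => ι n
  | _ + 1, 0 => Empty
  | k + 1, n + 1 => rι ι k n

instance rfin (ι : ℕ → Type) [h : ∀ i, Fintype (ι i)] : ∀ k n, Fintype (rι ι k n)
  | 0, n => h n
  | _ + 1, 0 => inferInstanceAs (Fintype Empty)
  | k + 1, n + 1 => rfin ι k n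

instance rdec (ι : ℕ → Type) [h : ∀ i, DecidableEq (ι i)] : ∀ k n, DecidableEq (rι ι k n)
  | 0, n => h n
  | _ + 1, 0 => inferInstanceAs (DecidableEq Empty)
  | k + 1, n + 1 => rdec ι k n

/-- the differentials of the reversed dual complex -/
def rd (C : Cx R) : ∀ k n, Matrix (rι C.ι (k + 1) n) (rι C.ι k n) R
  | 0, 0 => 0
  | 0, n + 1 => tr β (C.d n)
  | _ + 1, 0 => 0
  | k + 1, n + 1 => rd C k n

lemma rd_rd (C : Cx R) : ∀ k n, rd β C (k + 1) n * rd β C k n = 0
  | 0, 0 => Matrix.zero_mul _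
  | 0, 1 => Matrix.zero_mul (tr β (C.d 0))
  | 0, n + 2 => by
    change tr β (C.d n) * tr β (C.d (n + 1)) = 0
    rw [← tr_mul, C.dd, tr_zero]
  | _ + 1, 0 => Matrix.zero_mul _
  | k + 1, n + 1 => rd_rd C k n

/-- the reversed dual complex, with the dual of `C_n` in degree `0` -/
def rv (C : Cx R) (n : ℕ) : Cx R where
  ι k := rι C.ι k n
  d k := rd β C k n
  dd k := rd_rd β C k n

/-- exactness of the cochain complex -/
def CoEx (C : Cx R) (φ : R →+* S) : ℕ → Prop
  | 0 => ∀ x : C.ι 0 → S, (C.d 0).map φ *ᵥ x = 0 → x = 0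
  | j + 1 => ∀ x : C.ι (j + 1) → S, (C.d (j + 1)).map φ *ᵥ x = 0 →
      ∃ y, (C.d j).map φ *ᵥ y = x

lemma f_eq_zero (βS : AI S) {m : Type} {x : m → S} (h : (fun i => βS.f (x i)) = 0) : x = 0 := by
  funext i
  rw [← βS.inv (x i)]
  have h1 : βS.f (x i) = 0 := congrFun h i
  rw [h1, βS.zero]
  rfl

theorem ex_rv (C : Cx R) (βS : AI S) (φ : R →+* S) (hβ : ∀ r, φ (β.f r) = βS.f (φ r)) :
    ∀ k n, (∀ j, j + (k + 1) = n → CoEx C φ j) → Ex (rv β C n) φ (k + 1) := by
  intro k
  induction k with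
  | zero =>
    intro n h
    cases n with
    | zero =>
      haveI : IsEmpty ((rv β C 0).ι (0 + 1)) := inferInstanceAs (IsEmpty Empty)
      exact ex_empty _ _ _
    | succ n =>
      intro (x : C.ι n → S) hx
      have hx' : x ᵥ* (tr β (C.d n)).map φ = 0 := hx
      rw [tr_map β βS φ hβ] at hx'
      have h1 : (C.d n).map φ *ᵥ (fun i => βS.f (x i)) = 0 := by
        have h2 := f_vecMul βS x (tr βS ((C.d n).map φ))
        rw [tr_tr, hx'] at h2
        rw [← h2]
        funext i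
        exact βS.zero
      have h3 := h n rfl
      cases n with
      | zero =>
        have h4 := f_eq_zero βS (h3 _ h1)
        refine ⟨0, ?_⟩
        rw [h4]
        exact Matrix.zero_vecMul _
      | succ n =>
        obtain ⟨z, hz⟩ := h3 _ h1
        refine ⟨fun i => βS.f (z i), ?_⟩
        change (fun i => βS.f (z i)) ᵥ* (tr β (C.d n)).map φ = x
        rw [tr_map β βS φ hβ, ← f_mulVec, hz]
        funext i
        exact βS.inv _
  | succ k ih =>
    intro n h
    cases n with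
    | zero =>
      haveI : IsEmpty ((rv β C 0).ι (k + 1 + 1)) := inferInstanceAs (IsEmpty Empty)
      exact ex_empty _ _ _
    | succ n => exact ih n fun j hj => h j (by omega)

/-- the base change of a complex -/
def bc (C : Cx R) (φ : R →+* S) : Cx S where
  ι := C.ι
  d k := (C.d k).map φ
  dd k := map_dd C φ k

lemma ex_bc (C : Cx R) (φ : R →+* S) (k : ℕ) : Ex (bc C φ) (RingHom.id S) k ↔ Ex C φ k := by
  cases k with
  | zero => exact Iff.rfl
  | succ k => exact Iff.rfl

theorem coEx_of_ex (C : Cx R) (φ : R →+* S) (p : ℕ) (h : ∀ k ≤ p, Ex C φ k) :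
    ∀ k ≤ p, CoEx C φ k := by
  obtain ⟨s, hs0, -, hs⟩ := contraction (bc C φ) p fun k hk => (ex_bc C φ k).2 (h k hk)
  intro k hk
  cases k with
  | zero =>
    intro x hx
    have h1 : s 0 *ᵥ ((bc C φ).d 0 *ᵥ x) = x := by
      rw [Matrix.mulVec_mulVec, hs0, Matrix.one_mulVec]
    have h2 : (bc C φ).d 0 *ᵥ x = 0 := hx
    rw [h2, Matrix.mulVec_zero] at h1
    exact h1.symm
  | succ k =>
    intro x hx
    refine ⟨s k *ᵥ x, ?_⟩
    have h1 : ((bc C φ).d k * s k + s (k + 1) * (bc C φ).d (k + 1)) *ᵥ x = x := by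
      rw [hs k hk, Matrix.one_mulVec]
    have h2 : (bc C φ).d (k + 1) *ᵥ x = 0 := hx
    rw [Matrix.add_mulVec, ← Matrix.mulVec_mulVec, ← Matrix.mulVec_mulVec, h2,
      Matrix.mulVec_zero, add_zero] at h1
    exact h1

/-! ### independence of the resolution -/

theorem ex_indep' {U : Type} [AddCommGroup U] [Module R U] (P P' : Cx R) (hP : Rs0 U P 0)
    (hP' : Rs0 U P' 0) (φ : R →+* S) (i : ℕ) (h : Ex P' φ i) : Ex P φ i := by
  obtain ⟨ε, hε, hε0⟩ := hP'.aug
  have hU : HomIs U (sh P') 1 := by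
    refine ⟨ε.comp (cyc (sh P') (RingHom.id R) 1).subtype, ?_, ?_⟩
    · intro u
      obtain ⟨x, hx⟩ := hε u
      exact ⟨⟨x, (mem_cyc_sh P' (RingHom.id R) 0 x).2 trivial⟩, hx⟩
    · intro x
      exact hε0 x.1
  obtain ⟨F, hF1, hF2, -, -, hF5⟩ := kill_step φ (sh P') P 0 (fun k hk => by
    obtain rfl : k = 0 := by omega
    exact ex_empty _ _ _) hU hP
  have hF : ∀ k, Ex F (RingHom.id R) k := by
    intro k
    rcases Nat.lt_or_ge k 2 with hk | hk
    · exact hF1 k (by omega)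
    · obtain ⟨k, rfl⟩ : ∃ k', k = k' + 1 := ⟨k - 1, by omega⟩
      have h1 : Ex (sh P') (RingHom.id R) (k + 1) := (ex_sh P' _ k).2 (hP'.high k (by omega))
      obtain ⟨c, -, hc⟩ := hF2 (k + 1) (by omega) PUnit
        ⟨0, fun u => ⟨0, rfl⟩, fun x => ⟨fun _ => h1 x.1 x.2, fun _ => rfl⟩⟩
      intro x hx
      exact (hc ⟨x, hx⟩).1 rfl
  exact hF5 i (ex_of_ex F φ i (fun k _ => hF k) i le_rfl) ((ex_sh P' φ i).2 h)

end

end Pool.Agent.V5helper81.ZN
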