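import Pool.Agent.V5helper81.ZN.Main
import Pool.Agent.V5helper81.ZN.Rev

/-!
Poincaré duality: for the group of a closed aspherical manifold, the vanishing of the homology with
coefficients in C*_r in the lower half of the degrees implies the vanishing in all degrees.
-/

set_option autoImplicit false
set_option linter.unusedSectionVars false

open scoped Matrix ENNReal InnerProductSpace

namespace Pool.Agent.V5helper81.ZN

open Pool.Agent.H919R4.ZS MonoidAlgebra Pool.Agent.TH38.ZT Pool.Agent.R807.ZK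

section

variable {Q : Type} [Group Q]

noncomputable instance : InnerProductSpace ℂ (Hil Q) :=
  inferInstanceAs (InnerProductSpace ℂ (lp (fun _ : Q => ℂ) 2))

/-- the adjoint -/
noncomputable def adj (T : Op Q) : Op Q := ContinuousLinearMap.adjoint T

lemma inner_fn (x y : Hil Q) : ⟪x, y⟫_ℂ = ∑' g, ⟪x.fn g, y.fn g⟫_ℂ :=
  lp.inner_eq_tsum (𝕜 := ℂ) (G := fun _ : Q => ℂ) x y

lemma adj_lreg (g : Q) : adj (lreg g : Op Q) = lreg g⁻¹ := by
  refine (((ContinuousLinearMap.eq_adjoint_iff (lreg g⁻¹ : Op Q) (lreg g)).2 ?_)).symm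
  intro x y
  rw [inner_fn, inner_fn]
  have h := (Equiv.mulLeft g⁻¹).tsum_eq (fun h => ⟪((lreg g⁻¹ : Op Q) x).fn h, y.fn h⟫_ℂ)
  rw [← h]
  refine tsum_congr fun h => ?_
  change ⟪x.fn (g⁻¹⁻¹ * (g⁻¹ * h)), y.fn (g⁻¹ * h)⟫_ℂ = ⟪x.fn h, y.fn (g⁻¹ * h)⟫_ℂ
  rw [inv_inv, mul_inv_cancel_left]

lemma adj_mulOp {f : Q → ℝ} (hf : Bd fun g => (f g : ℂ)) :
    adj (mulOp fun g => (f g : ℂ)) = mulOp fun g => (f g : ℂ) := by
  refine (((ContinuousLinearMap.eq_adjoint_iff _ _).2 ?_)).symm
  intro x y
  rw [inner_fn, inner_fn]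
  refine tsum_congr fun h => ?_
  rw [fn_mulOp hf, fn_mulOp hf]
  simp only [RCLike.inner_apply, map_mul, Complex.conj_ofReal]
  ring

lemma adj_add (S T : Op Q) : adj (S + T) = adj S + adj T := map_add _ _ _
lemma adj_mul (S T : Op Q) : adj (S * T) = adj T * adj S := ContinuousLinearMap.adjoint_comp S T
lemma adj_adj (T : Op Q) : adj (adj T) = T := ContinuousLinearMap.adjoint_adjoint T
lemma adj_smul (c : ℂ) (T : Op Q) : adj (c • T) = (starRingEnd ℂ) c • adj T := map_smulₛₗ _ _ _
lemma adj_cont : Continuous (adj : Op Q → Op Q) := (ContinuousLinearMap.adjoint).continuous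

variable (w : Q →* ℤ)

lemma w_sq (g : Q) : w g * w g = 1 := by
  have h : IsUnit (w g) := by
    refine IsUnit.of_mul_eq_one (w g⁻¹) ?_
    rw [← map_mul, mul_inv_cancel, map_one]
  rcases Int.isUnit_iff.1 h with h | h <;> rw [h] <;> norm_num

lemma w_inv (g : Q) : w g⁻¹ = w g := by
  have h : w g * w g⁻¹ = 1 := by rw [← map_mul, mul_inv_cancel, map_one]
  calc w g⁻¹ = (w g * w g) * w g⁻¹ := by rw [w_sq, one_mul]
    _ = w g := by rw [mul_assoc, h, mul_one]

lemma w_bd : Bd fun g => (((w g : ℤ) : ℝ) : ℂ) := by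
  refine ⟨1, fun g => ?_⟩
  change ‖(((w g : ℤ) : ℝ) : ℂ)‖ ≤ 1
  have h := w_sq w g
  rcases mul_self_eq_one_iff.1 h with h | h <;> rw [h] <;> simp

/-- the multiplication by the character -/
noncomputable def mw : Op Q := mulOp fun g => (((w g : ℤ) : ℝ) : ℂ)

lemma mw_sq : mw w * mw w = 1 := by
  refine op_ext fun x g => ?_
  change (mulOp _ (mulOp _ x)).fn g = x.fn g
  rw [fn_mulOp (w_bd w), fn_mulOp (w_bd w), ← mul_assoc, ← Complex.ofReal_mul, ← Int.cast_mul,
    w_sq]
  simp

lemma mw_lreg (g : Q) : mw w * lreg g * mw w = ((w g : ℤ) : ℂ) • lreg g := by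
  refine op_ext fun x h => ?_
  change (mulOp _ (lreg g (mulOp _ x))).fn h = ((w g : ℤ) : ℂ) * x.fn (g⁻¹ * h)
  rw [fn_mulOp (w_bd w), fn_lreg, fn_mulOp (w_bd w), ← mul_assoc, ← Complex.ofReal_mul,
    ← Int.cast_mul, map_mul, w_inv]
  have h1 : w h * (w g * w h) = w g := by
    calc w h * (w g * w h) = w g * (w h * w h) := by ring
      _ = w g := by rw [w_sq, mul_one]
  rw [h1]
  simp

/-- the twisted adjoint -/
noncomputable def tad (T : Op Q) : Op Q := mw w * adj T * mw w

lemma tad_mul (S T : Op Q) : tad w (S * T) = tad w T * tad w S := by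
  calc tad w (S * T) = mw w * adj T * 1 * (adj S * mw w) := by
        rw [tad, adj_mul, mul_one]
        simp only [mul_assoc]
    _ = _ := by
        rw [← mw_sq w]
        simp only [tad, mul_assoc]

lemma tad_add (S T : Op Q) : tad w (S + T) = tad w S + tad w T := by
  rw [tad, adj_add, mul_add, add_mul]
  rfl

lemma tad_tad (T : Op Q) : tad w (tad w T) = T := by
  have h1 : adj (mw w) = mw w := adj_mulOp (w_bd w)
  calc tad w (tad w T) = (mw w * mw w) * T * (mw w * mw w) := by
        rw [tad, tad, adj_mul, adj_mul, h1, adj_adj]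
        simp only [mul_assoc]
    _ = T := by rw [mw_sq, one_mul, mul_one]

lemma tad_lreg (c : ℂ) (g : Q) :
    tad w (c • lreg g) = ((starRingEnd ℂ) c * ((w g : ℤ) : ℂ)) • lreg g⁻¹ := by
  rw [tad, adj_smul, adj_lreg, mul_smul_comm, smul_mul_assoc, mw_lreg, w_inv, smul_smul]

lemma tad_mem {T : Op Q} (hT : T ∈ redCstar Q) : tad w T ∈ redCstar Q := by
  let B : Subring (Op Q) :=
    { carrier := {x | tad w x ∈ redCstar Q}
      mul_mem' := by
        intro x y hx hy
        change tad w (x * y) ∈ redCstar Q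
        rw [tad_mul]
        exact Subring.mul_mem _ hy hx
      one_mem' := by
        change tad w 1 ∈ redCstar Q
        have h1 : adj (1 : Op Q) = 1 := by
          have h := adj_lreg (1 : Q)
          have h2 : (lreg (1 : Q) : Op Q) = 1 := map_one (lregHom Q)
          rwa [inv_one, h2] at h
        rw [tad, h1, mul_one, mw_sq]
        exact Subring.one_mem _
      add_mem' := by
        intro x y hx hy
        change tad w (x + y) ∈ redCstar Q
        rw [tad_add]
        exact Subring.add_mem _ hx hy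
      zero_mem' := by
        change tad w 0 ∈ redCstar Q
        have h := tad_add w (0 : Op Q) 0
        rw [add_zero] at h
        rw [left_eq_add.1 h]
        exact Subring.zero_mem _
      neg_mem' := by
        intro x hx
        change tad w (-x) ∈ redCstar Q
        have h0 : tad w (0 : Op Q) = 0 := by
          have h := tad_add w (0 : Op Q) 0
          rw [add_zero] at h
          exact left_eq_add.1 h
        have h := tad_add w x (-x)
        rw [add_neg_cancel, h0] at h
        rw [eq_neg_of_add_eq_zero_right h.symm]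
        exact Subring.neg_mem _ hx }
  have hB : IsClosed (B : Set (Op Q)) := by
    refine redCstar_closed.preimage (f := tad w) ?_
    exact (continuous_const.mul adj_cont).mul continuous_const
  refine redCstar_le B hB ?_ hT
  intro c g
  change tad w (c • lreg g) ∈ redCstar Q
  rw [tad_lreg]
  exact redCstar_smul _ (lreg_mem _)

/-- the involution of `C*_r(Q)` -/
noncomputable def aiR : AI (RedC Q) where
  f x := (⟨tad w x.1, tad_mem w x.2⟩ : redCstar Q)
  add x y := Subtype.ext (tad_add w x.1 y.1)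
  mul x y := Subtype.ext (tad_mul w x.1 y.1)
  inv x := Subtype.ext (tad_tad w x.1)

/-- the involution of the integral group ring as a homomorphism to the opposite ring -/
noncomputable def opZ : MonoidAlgebra ℤ Q →+* (MonoidAlgebra ℤ Q)ᵐᵒᵖ :=
  MonoidAlgebra.liftNCRingHom (Int.castRingHom _)
    { toFun := fun g => MulOpposite.op (single g⁻¹ (w g))
      map_one' := by
        rw [inv_one, map_one, ← MonoidAlgebra.one_def, MulOpposite.op_one]
      map_mul' := by
        intro g h
        rw [← MulOpposite.op_mul, MonoidAlgebra.single_mul_single, mul_inv_rev, map_mul, mul_comm] }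
    (fun x y => Int.cast_commute x _)

lemma opZ_single (g : Q) (r : ℤ) :
    opZ w (single g r) = MulOpposite.op (single g⁻¹ (w g * r)) := by
  change MonoidAlgebra.liftNC _ _ _ = _
  rw [MonoidAlgebra.liftNC_single]
  change ((r : ℤ) : (MonoidAlgebra ℤ Q)ᵐᵒᵖ) * MulOpposite.op (single g⁻¹ (w g)) = _
  rw [← zsmul_eq_mul, ← MulOpposite.op_smul, MonoidAlgebra.smul_single, smul_eq_mul, mul_comm]

/-- the involution of the integral group ring -/
noncomputable def aiZ : AI (MonoidAlgebra ℤ Q) where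
  f x := (opZ w x).unop
  add x y := by rw [map_add, MulOpposite.unop_add]
  mul x y := by rw [map_mul, MulOpposite.unop_mul]
  inv x := by
    refine MonoidAlgebra.induction_linear x ?_ ?_ ?_
    · rw [map_zero, MulOpposite.unop_zero, map_zero, MulOpposite.unop_zero]
    · intro x y hx hy
      rw [map_add, MulOpposite.unop_add, map_add, MulOpposite.unop_add, hx, hy]
    · intro g r
      rw [opZ_single, MulOpposite.unop_op, opZ_single, MulOpposite.unop_op, inv_inv, w_inv,
        ← mul_assoc, w_sq, one_mul]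

lemma aiZ_single (g : Q) (r : ℤ) : (aiZ w).f (single g r) = single g⁻¹ (w g * r) := by
  change (opZ w (single g r)).unop = _
  rw [opZ_single, MulOpposite.unop_op]

lemma toRed_single (g : Q) (r : ℤ) : vR Q (toRed Q (single g r)) = (r : ℂ) • lreg g := by
  have h := L_single (G := Q) g r
  have h2 : vR Q (toRed Q (single g r)) = r • lreg g := h
  rw [h2, Int.cast_smul_eq_zsmul]

lemma toRed_ai (r : MonoidAlgebra ℤ Q) : toRed Q ((aiZ w).f r) = (aiR w).f (toRed Q r) := by
  refine MonoidAlgebra.induction_linear r ?_ ?_ ?_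
  · rw [(aiZ w).zero, map_zero, (aiR w).zero]
  · intro x y hx hy
    rw [(aiZ w).add, map_add, map_add, (aiR w).add, hx, hy]
  · intro g r
    rw [aiZ_single]
    refine Subtype.ext ?_
    have h1 : ((aiR w).f (toRed Q (single g r)) : redCstar Q).1 =
        tad w (vR Q (toRed Q (single g r))) := rfl
    refine Eq.trans (toRed_single g⁻¹ (w g * r)) ?_
    refine Eq.trans ?_ h1.symm
    rw [toRed_single, tad_lreg]
    congr 1
    rw [Int.cast_mul, mul_comm]
    congr 1
    exact (map_intCast (starRingEnd ℂ) r).symm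

/-! ### the resolutions over the integral group ring -/

/-- the trivial module `ℤ` -/
def Tz (_ : Type) : Type := ℤ

instance : AddCommGroup (Tz Q) := inferInstanceAs (AddCommGroup ℤ)

noncomputable instance : Module (MonoidAlgebra ℤ Q) (Tz Q) := Module.compHom ℤ (augm Q)

/-- the complex of a resolution -/
def ZC (Y : FinRes Q) : Cx (MonoidAlgebra ℤ Q) where
  ι k := Fin (Y.n k)
  d k := Y.d k
  dd k := d_mul_d Y k

/-- the augmentation given by integers -/
noncomputable def augL {m : ℕ} (a : Fin m → ℤ) :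
    (Fin m → MonoidAlgebra ℤ Q) →ₗ[MonoidAlgebra ℤ Q] Tz Q where
  toFun x := (∑ j, augm Q (x j) * a j : ℤ)
  map_add' x y := by
    change (∑ j, augm Q ((x + y) j) * a j : ℤ) = ∑ j, augm Q (x j) * a j + ∑ j, augm Q (y j) * a j
    rw [← Finset.sum_add_distrib]
    exact Finset.sum_congr rfl fun j _ => by rw [Pi.add_apply, map_add, add_mul]
  map_smul' r x := by
    change (∑ j, augm Q ((r • x) j) * a j : ℤ) = augm Q r * ∑ j, augm Q (x j) * a j
    rw [Finset.mul_sum]
    exact Finset.sum_congr rfl fun j _ => by rw [Pi.smul_apply, smul_eq_mul, map_mul, mul_assoc]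

lemma augL_surj {m : ℕ} (a : Fin m → ℤ)
    (h : ∃ x : Fin m → MonoidAlgebra ℤ Q, ∑ j, augm Q (x j) * a j = 1) :
    Function.Surjective (augL (Q := Q) a) := by
  intro (r : ℤ)
  obtain ⟨x, hx⟩ := h
  refine ⟨r • x, ?_⟩
  have h1 : augL (Q := Q) a x = (1 : ℤ) := hx
  rw [map_zsmul, h1]
  change r • (1 : ℤ) = r
  simp

lemma rs0_ZC (Y : FinRes Q) : Rs0 (Tz Q) (ZC Y) 0 where
  low k hk := absurd hk (Nat.not_lt_zero k)
  aug := ⟨augL Y.aug, augL_surj Y.aug Y.surj, fun x => Y.exact_zero x⟩
  high k hk := by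
    obtain ⟨k, rfl⟩ : ∃ k', k = k' + 1 := ⟨k - 1, by omega⟩
    intro x hx
    exact (Y.exact_succ k x).1 hx

lemma ex_ZC (Y : FinRes Q) {S : Type} [Ring S] (φ : MonoidAlgebra ℤ Q →+* S) (k : ℕ) :
    Ex (ZC Y) φ k ↔ ExAt Y φ k := by
  cases k with
  | zero => exact ⟨fun h x => h x trivial, fun h x _ => h x⟩
  | succ k => exact Iff.rfl

end

section

variable {G : Type} [Group G] (X : FinRes G) (n : ℕ)

/-- right translation of a column -/
noncomputable def rt {m : ℕ} (g : G) (x : Fin m → MonoidAlgebra ℤ G) : Fin m → MonoidAlgebra ℤ G :=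
  fun i => x i * single g 1

lemma rt_mulVec {a b : ℕ} (M : Matrix (Fin a) (Fin b) (MonoidAlgebra ℤ G)) (g : G)
    (x : Fin b → MonoidAlgebra ℤ G) : M *ᵥ rt g x = rt g (M *ᵥ x) := by
  funext i
  change ∑ j, M i j * (x j * single g 1) = (∑ j, M i j * x j) * single g 1
  rw [Finset.sum_mul]
  exact Finset.sum_congr rfl fun j _ => (mul_assoc _ _ _).symm

lemma rt_rt {m : ℕ} (g h : G) (x : Fin m → MonoidAlgebra ℤ G) : rt h (rt g x) = rt (g * h) x := by
  funext i
  change x i * single g 1 * single h 1 = x i * single (g * h) 1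
  rw [mul_assoc, MonoidAlgebra.single_mul_single, one_mul]

lemma rt_one {m : ℕ} (x : Fin m → MonoidAlgebra ℤ G) : rt 1 x = x := by
  funext i
  change x i * single 1 1 = x i
  rw [← MonoidAlgebra.one_def, mul_one]

lemma rt_mem (g : G) : ∀ (k : ℕ) (x : Fin (X.n k) → MonoidAlgebra ℤ G), x ∈ X.coboundaries k →
    rt g x ∈ X.coboundaries k
  | 0, x, hx => by
    have h : x = 0 := hx
    rw [h]
    have h1 : rt g (0 : Fin (X.n 0) → MonoidAlgebra ℤ G) = 0 := by
      funext i
      exact zero_mul _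
    rw [h1]
    exact AddSubgroup.zero_mem _
  | k + 1, x, hx => by
    obtain ⟨y, rfl⟩ := hx
    exact ⟨rt g y, rt_mulVec _ _ _⟩

/-- the orientation character and the fundamental class from the cohomology -/
theorem exists_w (hlen : X.len = n) (h1 : Nonempty (X.cohomology n ≃+ ℤ)) :
    ∃ (w : G →* ℤ) (a : Fin (X.n n) → ℤ),
      (∃ x : Fin (X.n n) → MonoidAlgebra ℤ G, ∑ j, augm G (x j) * a j = 1) ∧
      ∀ x : Fin (X.n n) → MonoidAlgebra ℤ G, ∑ j, augm G (x j) * a j = 0 ↔
        (fun j => (aiZ w).f (x j)) ∈ X.coboundaries n := by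
  obtain ⟨e⟩ := h1
  have hker : ∀ x, x ∈ (X.cobd n).ker := by
    intro x
    have h0 : X.n (n + 1) = 0 := X.n_eq_zero _ (by omega)
    haveI : IsEmpty (Fin (X.n (n + 1))) := by rw [h0]; infer_instance
    exact funext fun j => isEmptyElim j
  let c : (Fin (X.n n) → MonoidAlgebra ℤ G) →+ ℤ :=
    { toFun := fun x => e (QuotientAddGroup.mk (⟨x, hker x⟩ : (X.cobd n).ker))
      map_zero' := by
        have h : (⟨0, hker 0⟩ : (X.cobd n).ker) = 0 := rfl
        rw [h, QuotientAddGroup.mk_zero, map_zero]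
      map_add' := by
        intro x y
        have h : (⟨x + y, hker (x + y)⟩ : (X.cobd n).ker) = ⟨x, hker x⟩ + ⟨y, hker y⟩ := rfl
        rw [h, QuotientAddGroup.mk_add, map_add] }
  have hc : ∀ x, c x = 0 ↔ x ∈ X.coboundaries n := by
    intro x
    change e (QuotientAddGroup.mk (⟨x, hker x⟩ : (X.cobd n).ker)) = 0 ↔ _
    rw [map_eq_zero_iff e e.injective, QuotientAddGroup.eq_zero_iff]
    exact Iff.rfl
  obtain ⟨x1, hx1⟩ : ∃ x1, c x1 = 1 := by
    obtain ⟨q, hq⟩ := e.surjective 1
    obtain ⟨⟨x, hx⟩, rfl⟩ := QuotientAddGroup.mk_surjective q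
    exact ⟨x, hq⟩
  have hrt : ∀ g x, c (rt g x) = c (rt g x1) * c x := by
    intro g x
    have h2 : x - c x • x1 ∈ X.coboundaries n := by
      rw [← hc, map_sub, map_zsmul, hx1, smul_eq_mul, mul_one, sub_self]
    have h3 := (hc _).2 (rt_mem X g n _ h2)
    have h4 : rt g (x - c x • x1) = rt g x - c x • rt g x1 := by
      funext i
      change (x i - c x • x1 i) * single g 1 = x i * single g 1 - c x • (x1 i * single g 1)
      rw [sub_mul, smul_mul_assoc]
    rw [h4, map_sub, map_zsmul, smul_eq_mul, sub_eq_zero] at h3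
    rw [h3, mul_comm]
  let w : G →* ℤ :=
    { toFun := fun g => c (rt g x1)
      map_one' := by rw [rt_one, hx1]
      map_mul' := by
        intro g h
        rw [← rt_rt, hrt h, mul_comm] }
  have hw : ∀ g x, c (rt g x) = w g * c x := hrt
  let a : Fin (X.n n) → ℤ := fun j => c (Pi.single j 1)
  have hform : ∀ x : Fin (X.n n) → MonoidAlgebra ℤ G,
      c (fun j => (aiZ w).f (x j)) = ∑ j, augm G (x j) * a j := by
    intro x
    have h5 : (fun j => (aiZ w).f (x j)) =
        ∑ j, (Pi.single j ((aiZ w).f (x j)) : Fin (X.n n) → MonoidAlgebra ℤ G) :=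
      (Finset.univ_sum_single _).symm
    rw [h5, map_sum]
    refine Finset.sum_congr rfl fun j _ => ?_
    refine MonoidAlgebra.induction_linear (x j) ?_ ?_ ?_
    · rw [(aiZ w).zero, Pi.single_zero, map_zero, map_zero, zero_mul]
    · intro u v hu hv
      rw [(aiZ w).add, Pi.single_add, map_add, map_add, hu, hv, add_mul]
    · intro g r
      rw [aiZ_single, augm_single]
      have h6 : (Pi.single j (single g⁻¹ (w g * r)) : Fin (X.n n) → MonoidAlgebra ℤ G) =
          (w g * r) • rt g⁻¹ (Pi.single j 1) := by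
        funext i
        change _ = (w g * r) • ((Pi.single j 1 : Fin (X.n n) → MonoidAlgebra ℤ G) i *
          single g⁻¹ 1)
        by_cases hi : i = j
        · subst hi
          rw [Pi.single_eq_same, Pi.single_eq_same, one_mul, MonoidAlgebra.smul_single,
            smul_eq_mul, mul_one]
        · rw [Pi.single_eq_of_ne hi, Pi.single_eq_of_ne hi, zero_mul, smul_zero]
      rw [h6, map_zsmul, hw, w_inv, smul_eq_mul]
      calc w g * r * (w g * c (Pi.single j 1)) = (w g * w g) * (r * c (Pi.single j 1)) := by ring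
        _ = r * a j := by rw [w_sq, one_mul]
  refine ⟨w, a, ?_, ?_⟩
  · refine ⟨fun j => (aiZ w).f (x1 j), ?_⟩
    rw [← hform]
    have h7 : (fun j => (aiZ w).f ((fun j => (aiZ w).f (x1 j)) j)) = x1 :=
      funext fun j => (aiZ w).inv _
    rw [h7, hx1]
  · intro x
    rw [← hform, hc]

/-- the reversed dual of the resolution of a Poincaré duality group is a resolution -/
theorem exists_dual (hlen : X.len = n) (h0 : ∀ k < n, Subsingleton (X.cohomology k))
    (h1 : Nonempty (X.cohomology n ≃+ ℤ)) :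
    ∃ w : G →* ℤ, Rs0 (Tz G) (rv (aiZ w) (ZC X) n) 0 := by
  obtain ⟨w, a, ha, ha0⟩ := exists_w X n hlen h1
  refine ⟨w, fun k hk => absurd hk (Nat.not_lt_zero k), ?_, ?_⟩
  · refine ⟨augL a, augL_surj a ha, fun x => (ha0 x).trans ?_⟩
    cases n with
    | zero =>
      constructor
      · intro h
        have h2 : (fun j => (aiZ w).f (x j)) = 0 := h
        refine ⟨0, ?_⟩
        rw [f_eq_zero (aiZ w) h2]
        exact Matrix.zero_vecMul _
      · rintro ⟨y, hy⟩
        have h3 : x = 0 := by
          rw [← hy]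
          exact Matrix.vecMul_zero _
        rw [h3]
        have h4 : (fun j : Fin (X.n 0) => (aiZ w).f ((0 : Fin (X.n 0) → MonoidAlgebra ℤ G) j)) = 0 :=
          funext fun j => (aiZ w).zero
        have h5 : (0 : Fin (X.n 0) → MonoidAlgebra ℤ G) ∈ X.coboundaries 0 :=
          AddSubgroup.zero_mem _
        rw [← h4] at h5
        exact h5
    | succ n =>
      constructor
      · rintro ⟨z, hz⟩
        refine ⟨fun i => (aiZ w).f (z i), ?_⟩
        change (fun i => (aiZ w).f (z i)) ᵥ* tr (aiZ w) (X.d n) = x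
        rw [← f_mulVec]
        have h5 : X.d n *ᵥ z = fun j => (aiZ w).f (x j) := hz
        rw [h5]
        exact funext fun j => (aiZ w).inv _
      · rintro ⟨(y : Fin (X.n n) → MonoidAlgebra ℤ G), hy⟩
        have hy' : y ᵥ* tr (aiZ w) (X.d n) = x := hy
        refine ⟨fun i => (aiZ w).f (y i), ?_⟩
        change X.d n *ᵥ (fun i => (aiZ w).f (y i)) = _
        rw [← hy', f_vecMul, tr_tr]
  · intro k hk
    obtain ⟨k, rfl⟩ : ∃ k', k = k' + 1 := ⟨k - 1, by omega⟩
    refine ex_rv (aiZ w) (ZC X) (aiZ w) (RingHom.id _) (fun _ => rfl) k n fun j hj => ?_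
    have hsub := h0 j (by omega)
    have hmem : ∀ x : Fin (X.n j) → MonoidAlgebra ℤ G, X.d j *ᵥ x = 0 → x ∈ X.coboundaries j := by
      intro x hx
      have h6 : (QuotientAddGroup.mk (⟨x, hx⟩ : (X.cobd j).ker) : X.cohomology j) = 0 :=
        Subsingleton.elim _ _
      exact (QuotientAddGroup.eq_zero_iff (N := (X.coboundaries j).addSubgroupOf (X.cobd j).ker)
        (⟨x, hx⟩ : (X.cobd j).ker)).1 h6
    cases j with
    | zero =>
      intro x hx
      exact hmem x hx
    | succ j =>
      intro x hx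
      exact hmem x hx

/-- vanishing in the lower half of the degrees implies vanishing in all degrees -/
theorem half (hlen : X.len = n) (h0 : ∀ k < n, Subsingleton (X.cohomology k))
    (h1 : Nonempty (X.cohomology n ≃+ ℤ)) (h : ∀ j, 2 * j ≤ n → ExAt X (toRed G) j) (i : ℕ) :
    ExAt X (toRed G) i := by
  rcases Nat.lt_or_ge n (2 * i) with hi | hi
  · obtain ⟨w, hw⟩ := exists_dual X n hlen h0 h1
    refine (ex_ZC X (toRed G) i).1 (ex_indep' (ZC X) _ (rs0_ZC X) hw (toRed G) i ?_)
    obtain ⟨i, rfl⟩ : ∃ i', i = i' + 1 := ⟨i - 1, by omega⟩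
    refine ex_rv (aiZ w) (ZC X) (aiR w) (toRed G) (toRed_ai w) i n fun j hj => ?_
    exact coEx_of_ex (ZC X) (toRed G) j (fun k hk => (ex_ZC X (toRed G) k).2 (h k (by omega))) j
      le_rfl
  · exact h i hi

end

end Pool.Agent.V5helper81.ZN
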