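import Mathlib

/-!
Finite dimensional quotients of finitely generated free modules over a Banach algebra.
-/

set_option autoImplicit false
set_option linter.unusedSectionVars false

namespace Pool.Agent.V5helper81.ZN

section

variable {A : Type} [NormedRing A] [NormedAlgebra ℂ A] [CompleteSpace A]
  {I : Type} [Fintype I] [DecidableEq I]

/-- a dense submodule of a finitely generated free module is the whole module -/
theorem dense_top (J : Submodule ℂ (I → A))
    (hJ : ∀ (a : A) (x : I → A), x ∈ J → (fun i => a * x i) ∈ J)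
    (hd : Dense (J : Set (I → A))) : J = ⊤ := by
  have hδ : (0 : ℝ) < 1 / (Fintype.card I + 1) := by positivity
  have h1 : ∀ i : I, ∃ m ∈ J, ‖(Pi.single i 1 : I → A) - m‖ < 1 / (Fintype.card I + 1) := by
    intro i
    obtain ⟨m, hm, hm'⟩ := hd.exists_dist_lt (Pi.single i 1 : I → A) hδ
    exact ⟨m, hm, by rwa [← dist_eq_norm]⟩
  choose m hm hm' using h1
  let N0 : (I → A) →ₗ[ℂ] (I → A) :=
    { toFun := fun x => ∑ i, fun j => x i * ((Pi.single i 1 : I → A) - m i) j
      map_add' := by
        intro x y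
        rw [← Finset.sum_add_distrib]
        refine Finset.sum_congr rfl fun i _ => ?_
        funext j
        exact add_mul _ _ _
      map_smul' := by
        intro c x
        rw [Finset.smul_sum]
        refine Finset.sum_congr rfl fun i _ => ?_
        funext j
        exact smul_mul_assoc _ _ _ }
  have hN : ∀ x, ‖N0 x‖ ≤ (Fintype.card I * (1 / (Fintype.card I + 1))) * ‖x‖ := by
    intro x
    change ‖∑ i, fun j => x i * ((Pi.single i 1 : I → A) - m i) j‖ ≤ _
    refine (norm_sum_le _ _).trans ?_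
    have h2 : ∀ i ∈ Finset.univ, ‖fun j => x i * ((Pi.single i 1 : I → A) - m i) j‖ ≤
        (1 / ((Fintype.card I : ℝ) + 1)) * ‖x‖ := by
      intro i _
      rw [pi_norm_le_iff_of_nonneg (by positivity)]
      intro j
      refine (norm_mul_le _ _).trans ?_
      rw [mul_comm]
      refine mul_le_mul ((norm_le_pi_norm _ j).trans (hm' i).le) (norm_le_pi_norm x i)
        (norm_nonneg _) hδ.le
    refine (Finset.sum_le_sum h2).trans (le_of_eq ?_)
    rw [Finset.sum_const, Finset.card_univ, nsmul_eq_mul]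
    ring
  let N : (I → A) →L[ℂ] (I → A) := N0.mkContinuous _ hN
  have hN1 : ‖N‖ < 1 := by
    refine (LinearMap.mkContinuous_norm_le _ (by positivity) _).trans_lt ?_
    rw [mul_one_div, div_lt_one (by positivity)]
    linarith
  have hu : IsUnit ((1 : (I → A) →L[ℂ] (I → A)) - N) :=
    isUnit_one_sub_of_norm_lt_one (x := N) hN1
  obtain ⟨u, hu⟩ := hu
  rw [eq_top_iff]
  intro x _
  have h3 : x = (1 - N) ((↑(u⁻¹) : (I → A) →L[ℂ] (I → A)) x) := by
    rw [← hu]
    have h4 : (u : (I → A) →L[ℂ] (I → A)) * (↑(u⁻¹) : (I → A) →L[ℂ] (I → A)) = 1 := u.mul_inv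
    exact (congrArg (fun T : (I → A) →L[ℂ] (I → A) => T x) h4).symm
  rw [h3]
  generalize (↑(u⁻¹) : (I → A) →L[ℂ] (I → A)) x = y
  have h5 : (1 - N) y = ∑ i, fun j => y i * m i j := by
    change y - (∑ i, fun j => y i * ((Pi.single i 1 : I → A) - m i) j) = _
    have h6 : ∀ i, (fun j => y i * ((Pi.single i 1 : I → A) - m i) j) =
        Pi.single i (y i) - fun j => y i * m i j := by
      intro i
      funext j
      rw [Pi.sub_apply, Pi.sub_apply, mul_sub]
      congr 1
      by_cases h : j = i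
      · subst h
        rw [Pi.single_eq_same, Pi.single_eq_same, mul_one]
      · rw [Pi.single_eq_of_ne h, Pi.single_eq_of_ne h, mul_zero]
    simp only [h6]
    rw [Finset.sum_sub_distrib, Finset.univ_sum_single, sub_sub_cancel]
  rw [h5]
  exact Submodule.sum_mem _ fun i _ => hJ _ _ (hm i)

/-- left multiplication -/
noncomputable def lmul (a : A) : (I → A) →L[ℂ] (I → A) :=
  ContinuousLinearMap.pi fun i => (ContinuousLinearMap.mul ℂ A a).comp
    (ContinuousLinearMap.proj i : (I → A) →L[ℂ] A)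

lemma lmul_apply (a : A) (x : I → A) (i : I) : lmul a x i = a * x i := rfl

/-- a finitely generated module which is not dense and has a dense quotient of finite dimension
gives a finite dimensional representation -/
theorem exists_rep (J : Submodule ℂ (I → A))
    (hJ : ∀ (a : A) (x : I → A), x ∈ J → (fun i => a * x i) ∈ J) (hne : J ≠ ⊤)
    (K : Submodule ℂ (I → A)) [FiniteDimensional ℂ K]
    (hd : Dense ((J ⊔ K : Submodule ℂ (I → A)) : Set (I → A))) :
    ∃ (D : ℕ) (σ : A →+* Matrix (Fin D) (Fin D) ℂ) (C : ℝ), 0 < D ∧ 0 ≤ C ∧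
      (∀ a i j, ‖σ a i j‖ ≤ C * ‖a‖) ∧ ∀ (c : ℂ) (a : A), σ (c • a) = c • σ a := by
  set Jc := J.topologicalClosure with hJc
  haveI hcl : IsClosed (Jc : Set (I → A)) := J.isClosed_topologicalClosure
  have hle : J ≤ Jc := J.le_topologicalClosure
  have hinv : ∀ a : A, Jc ≤ Jc.comap (lmul a : (I → A) →L[ℂ] (I → A)).toLinearMap := by
    intro a
    refine Submodule.topologicalClosure_minimal J ?_ ?_
    · exact fun x hx => hle (hJ a x hx)
    · exact hcl.preimage (lmul a : (I → A) →L[ℂ] (I → A)).continuous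
  have hne' : Jc ≠ ⊤ := by
    intro h
    refine hne (dense_top J hJ ?_)
    rw [dense_iff_closure_eq, ← Submodule.topologicalClosure_coe, ← hJc, h]
    rfl
  have hq : Continuous (Jc.mkQ : (I → A) → (I → A) ⧸ Jc) :=
    continuous_quot_mk
  have hfin : FiniteDimensional ℂ ((I → A) ⧸ Jc) := by
    have h1 : (J ⊔ K).map Jc.mkQ = K.map Jc.mkQ := by
      rw [Submodule.map_sup, LinearMap.le_ker_iff_map.1
        (show J ≤ LinearMap.ker Jc.mkQ by rw [Submodule.ker_mkQ]; exact hle), bot_sup_eq]
    haveI : FiniteDimensional ℂ (K.map Jc.mkQ) := inferInstance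
    have h2 : IsClosed ((K.map Jc.mkQ : Submodule ℂ ((I → A) ⧸ Jc)) : Set ((I → A) ⧸ Jc)) :=
      Submodule.closed_of_finiteDimensional _
    have h3 : Dense ((K.map Jc.mkQ : Submodule ℂ ((I → A) ⧸ Jc)) : Set ((I → A) ⧸ Jc)) := by
      rw [← h1, Submodule.map_coe]
      exact (Function.Surjective.denseRange Jc.mkQ_surjective).dense_image hq hd
    have h4 : K.map Jc.mkQ = ⊤ := by
      have h5 := h3.closure_eq
      rw [h2.closure_eq] at h5
      exact SetLike.coe_injective h5
    refine Module.Finite.of_surjective (K.map Jc.mkQ).subtype ?_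
    intro x
    exact ⟨⟨x, by rw [h4]; trivial⟩, rfl⟩
  have hnt : Nontrivial ((I → A) ⧸ Jc) := Submodule.Quotient.nontrivial_iff.2 hne'
  let σ0 : A →+* Module.End ℂ ((I → A) ⧸ Jc) :=
    { toFun := fun a => Jc.mapQ Jc (lmul a : (I → A) →L[ℂ] (I → A)).toLinearMap (hinv a)
      map_one' := by
        refine Submodule.linearMap_qext _ (LinearMap.ext fun x => ?_)
        change Jc.mkQ (fun i => 1 * x i) = Jc.mkQ x
        simp only [one_mul]
      map_mul' := by
        intro a b
        refine Submodule.linearMap_qext _ (LinearMap.ext fun x => ?_)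
        change Jc.mkQ (fun i => a * b * x i) = Jc.mkQ (fun i => a * (b * x i))
        simp only [mul_assoc]
      map_zero' := by
        refine Submodule.linearMap_qext _ (LinearMap.ext fun x => ?_)
        change Jc.mkQ (fun i => 0 * x i) = 0
        simp only [zero_mul]
        exact map_zero _
      map_add' := by
        intro a b
        refine Submodule.linearMap_qext _ (LinearMap.ext fun x => ?_)
        change Jc.mkQ (fun i => (a + b) * x i) = Jc.mkQ (fun i => a * x i) + Jc.mkQ (fun i => b * x i)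
        rw [← map_add]
        congr 1
        funext i
        exact add_mul _ _ _ }
  let bs := Module.finBasis ℂ ((I → A) ⧸ Jc)
  let σ : A →+* Matrix (Fin (Module.finrank ℂ ((I → A) ⧸ Jc)))
      (Fin (Module.finrank ℂ ((I → A) ⧸ Jc))) ℂ :=
    ((LinearMap.toMatrixAlgEquiv bs).toRingEquiv.toRingHom).comp σ0
  choose v hv using fun j => Jc.mkQ_surjective (bs j)
  have hcoord : ∀ i : Fin (Module.finrank ℂ ((I → A) ⧸ Jc)), ∃ C : ℝ, 0 ≤ C ∧
      ∀ x : (I → A) ⧸ Jc, ‖bs.coord i x‖ ≤ C * ‖x‖ := by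
    intro i
    refine ⟨‖LinearMap.toContinuousLinearMap (bs.coord i)‖, ContinuousLinearMap.opNorm_nonneg _,
      fun x => ?_⟩
    exact (LinearMap.toContinuousLinearMap (bs.coord i)).le_opNorm x
  choose C hC hC' using hcoord
  refine ⟨_, σ, (∑ i, C i) * ∑ j, ‖v j‖, Module.finrank_pos,
    mul_nonneg (Finset.sum_nonneg fun i _ => hC i) (Finset.sum_nonneg fun j _ => norm_nonneg _), ?_,
    ?_⟩
  swap
  · intro c a
    have h1 : σ0 (c • a) = c • σ0 a := by
      refine Submodule.linearMap_qext _ (LinearMap.ext fun x => ?_)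
      change Jc.mkQ (fun i => (c • a) * x i) = c • Jc.mkQ (fun i => a * x i)
      rw [← map_smul]
      congr 1
      funext i
      exact smul_mul_assoc _ _ _
    change LinearMap.toMatrixAlgEquiv bs (σ0 (c • a)) = c • LinearMap.toMatrixAlgEquiv bs (σ0 a)
    rw [h1, map_smul]
  intro a i j
  have h1 : σ a i j = bs.coord i (Jc.mkQ (fun k => a * v j k)) := by
    change LinearMap.toMatrixAlgEquiv bs (σ0 a) i j = _
    rw [LinearMap.toMatrixAlgEquiv_apply, ← hv j]
    rfl
  rw [h1]
  refine (hC' i _).trans ?_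
  have h2 : ‖Jc.mkQ (fun k => a * v j k)‖ ≤ ‖a‖ * ‖v j‖ := by
    refine (Submodule.Quotient.norm_mk_le Jc _).trans ?_
    rw [pi_norm_le_iff_of_nonneg (by positivity)]
    intro k
    exact (norm_mul_le _ _).trans (mul_le_mul_of_nonneg_left (norm_le_pi_norm _ k) (norm_nonneg _))
  have h3 : C i ≤ ∑ i, C i := Finset.single_le_sum (f := C) (fun i _ => hC i) (Finset.mem_univ i)
  have h4 : ‖v j‖ ≤ ∑ j, ‖v j‖ :=
    Finset.single_le_sum (f := fun j => ‖v j‖) (fun i _ => norm_nonneg _) (Finset.mem_univ j)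
  calc C i * ‖Jc.mkQ (fun k => a * v j k)‖ ≤ (∑ i, C i) * (‖a‖ * ∑ j, ‖v j‖) := by
        refine mul_le_mul h3 (h2.trans (mul_le_mul_of_nonneg_left h4 (norm_nonneg _)))
          (norm_nonneg _) (Finset.sum_nonneg fun i _ => hC i)
    _ = (∑ i, C i) * (∑ j, ‖v j‖) * ‖a‖ := by ring

end

end Pool.Agent.V5helper81.ZN
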