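import Pool.Agent.TH38.ZT.Gen

/-!
Complexes of finitely generated free modules over a ring, given by matrices, and the homology after
a change of rings.  The lowest homology module is killed by attaching a resolution of it.
-/

set_option autoImplicit false
set_option linter.unusedSectionVars false

open scoped Matrix

namespace Pool.Agent.V5helper81.ZN

open Pool.Agent.TH38.ZT (dep_seq)

/-- a complex of finitely generated free left modules over `R`; the elements are row vectors -/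
structure Cx (R : Type) [Ring R] where
  /-- the bases -/
  ι : ℕ → Type
  [fin : ∀ i, Fintype (ι i)]
  [dec : ∀ i, DecidableEq (ι i)]
  /-- the differentials -/
  d : ∀ i, Matrix (ι (i + 1)) (ι i) R
  dd : ∀ i, d (i + 1) * d i = 0

attribute [instance] Cx.fin Cx.dec

section

variable {R : Type} [Ring R] {S : Type} [Ring S]

/-- the cycles of `S ⊗ C` -/
def cyc (C : Cx R) (φ : R →+* S) : ∀ i, Submodule S (C.ι i → S)
  | 0 => ⊤
  | i + 1 => LinearMap.ker ((C.d i).map φ).vecMulLinear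

/-- `S ⊗ C` is exact in degree `i` -/
def Ex (C : Cx R) (φ : R →+* S) (i : ℕ) : Prop :=
  ∀ x ∈ cyc C φ i, ∃ y, y ᵥ* (C.d i).map φ = x

lemma mem_cyc_succ (C : Cx R) (φ : R →+* S) (i : ℕ) (x : C.ι (i + 1) → S) :
    x ∈ cyc C φ (i + 1) ↔ x ᵥ* (C.d i).map φ = 0 := Iff.rfl

lemma mem_cyc_zero (C : Cx R) (φ : R →+* S) (x : C.ι 0 → S) : x ∈ cyc C φ 0 := trivial

lemma map_dd (C : Cx R) (φ : R →+* S) (i : ℕ) :
    (C.d (i + 1)).map φ * (C.d i).map φ = 0 := by
  rw [← Matrix.map_mul, C.dd]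
  ext
  simp

lemma bd_mem (C : Cx R) (φ : R →+* S) (i : ℕ) (y : C.ι (i + 1) → S) :
    y ᵥ* (C.d i).map φ ∈ cyc C φ i := by
  cases i with
  | zero => trivial
  | succ i => rw [mem_cyc_succ, Matrix.vecMul_vecMul, map_dd, Matrix.vecMul_zero]

lemma map_id_eq {m n : Type} (M : Matrix m n R) : M.map (RingHom.id R) = M := rfl

lemma exists_rows' {l m n : Type} [Fintype m] (P : Matrix m n S)
    (T : Matrix l n S) (h : ∀ i, ∃ y, y ᵥ* P = T i) : ∃ s : Matrix l m S, s * P = T := by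
  choose s hs using h
  refine ⟨Matrix.of s, ?_⟩
  funext i
  rw [Matrix.mul_apply_eq_vecMul]
  exact hs i

lemma row_cyc (C : Cx R) (φ : R →+* S) (i : ℕ) {l : Type}
    (M : Matrix l (C.ι (i + 1)) S) (hM : M * (C.d i).map φ = 0) (k : l) :
    M k ∈ cyc C φ (i + 1) := by
  rw [mem_cyc_succ, ← Matrix.mul_apply_eq_vecMul, hM]
  rfl

/-- a complex acyclic in degrees up to `p` has a contraction there -/
theorem contraction (C : Cx R) (p : ℕ) (h : ∀ i ≤ p, Ex C (RingHom.id R) i) :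
    ∃ s : ∀ i, Matrix (C.ι i) (C.ι (i + 1)) R,
      s 0 * C.d 0 = 1 ∧ (∀ i ≤ p, C.d i * s i * C.d i = C.d i) ∧
      ∀ i, i + 1 ≤ p → C.d i * s i + s (i + 1) * C.d (i + 1) = 1 := by
  obtain ⟨s0, hs0⟩ := exists_rows' (C.d 0) (1 : Matrix (C.ι 0) (C.ι 0) R)
    (fun i => h 0 (Nat.zero_le _) _ trivial)
  obtain ⟨f, hf0, hf⟩ := dep_seq (α := fun i => {s : Matrix (C.ι i) (C.ι (i + 1)) R //
      i ≤ p → C.d i * s * C.d i = C.d i})
    (fun i s s' => i + 1 ≤ p → C.d i * s.1 + s'.1 * C.d (i + 1) = 1)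
    ⟨s0, fun _ => by rw [Matrix.mul_assoc, hs0, Matrix.mul_one]⟩ (by
      rintro i ⟨s, hs⟩
      by_cases hi : i + 1 ≤ p
      · obtain ⟨s', hs'⟩ := exists_rows' (C.d (i + 1)) (1 - C.d i * s) (fun k =>
          h (i + 1) hi _ (row_cyc C (RingHom.id R) i _ (by
            rw [map_id_eq, Matrix.sub_mul, Matrix.one_mul, hs (by omega), sub_self]) k))
        refine ⟨⟨s', fun _ => ?_⟩, fun _ => ?_⟩
        · rw [Matrix.mul_assoc, hs', Matrix.mul_sub, Matrix.mul_one, ← Matrix.mul_assoc, C.dd,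
            Matrix.zero_mul, sub_zero]
        · change C.d i * s + s' * C.d (i + 1) = 1
          rw [hs', add_sub_cancel]
      · exact ⟨⟨0, fun h => absurd h hi⟩, fun h => absurd h hi⟩)
  refine ⟨fun i => (f i).1, ?_, fun i hi => (f i).2 hi, hf⟩
  change (f 0).1 * C.d 0 = 1
  rw [hf0]
  exact hs0

/-- change of rings for a complex acyclic in small degrees -/
theorem ex_of_ex (C : Cx R) (φ : R →+* S) (p : ℕ) (h : ∀ i ≤ p, Ex C (RingHom.id R) i) :
    ∀ i ≤ p, Ex C φ i := by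
  obtain ⟨s, hs0, -, hs⟩ := contraction C p h
  have h1 : ∀ i, (1 : Matrix (C.ι i) (C.ι i) R).map φ = 1 := fun i =>
    Matrix.map_one _ (map_zero φ) (map_one φ)
  intro i hi
  cases i with
  | zero =>
    refine fun x _ => ⟨x ᵥ* (s 0).map φ, ?_⟩
    rw [Matrix.vecMul_vecMul, ← Matrix.map_mul, hs0, h1, Matrix.vecMul_one]
  | succ i =>
    intro x hx
    rw [mem_cyc_succ] at hx
    refine ⟨x ᵥ* (s (i + 1)).map φ, ?_⟩
    have h2 : (C.d i).map φ * (s i).map φ + (s (i + 1)).map φ * (C.d (i + 1)).map φ = 1 := by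
      rw [← Matrix.map_mul, ← Matrix.map_mul, ← Matrix.map_add _ (map_add φ), hs i hi, h1]
    rw [Matrix.vecMul_vecMul]
    calc x ᵥ* ((s (i + 1)).map φ * (C.d (i + 1)).map φ)
        = x ᵥ* ((C.d i).map φ * (s i).map φ) +
          x ᵥ* ((s (i + 1)).map φ * (C.d (i + 1)).map φ) := by
          rw [← Matrix.vecMul_vecMul x ((C.d i).map φ), hx, Matrix.zero_vecMul, zero_add]
      _ = x := by rw [← Matrix.vecMul_add, h2, Matrix.vecMul_one]

/-! ### the shift -/

/-- the bases of the shifted complex -/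
def shι (ι : ℕ → Type) : ℕ → Type
  | 0 => Empty
  | i + 1 => ι i

instance shfin (ι : ℕ → Type) [∀ i, Fintype (ι i)] : ∀ i, Fintype (shι ι i)
  | 0 => inferInstanceAs (Fintype Empty)
  | i + 1 => inferInstanceAs (Fintype (ι i))

instance shdec (ι : ℕ → Type) [∀ i, DecidableEq (ι i)] : ∀ i, DecidableEq (shι ι i)
  | 0 => inferInstanceAs (DecidableEq Empty)
  | i + 1 => inferInstanceAs (DecidableEq (ι i))

/-- the differentials of the shifted complex -/
def shd (C : Cx R) : ∀ i, Matrix (shι C.ι (i + 1)) (shι C.ι i) R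
  | 0 => 0
  | i + 1 => C.d i

/-- the complex shifted by one degree -/
def sh (C : Cx R) : Cx R where
  ι := shι C.ι
  d := shd C
  dd
    | 0 => Matrix.mul_zero _
    | i + 1 => C.dd i

instance (C : Cx R) : IsEmpty ((sh C).ι 0) := inferInstanceAs (IsEmpty Empty)

lemma mem_cyc_sh (C : Cx R) (φ : R →+* S) (i : ℕ) (x : C.ι i → S) :
    (show (sh C).ι (i + 1) → S from x) ∈ cyc (sh C) φ (i + 1) ↔ x ∈ cyc C φ i := by
  cases i with
  | zero =>
    refine ⟨fun _ => trivial, fun _ => ?_⟩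
    rw [mem_cyc_succ]
    funext j
    exact isEmptyElim j
  | succ i => exact Iff.rfl

lemma ex_sh (C : Cx R) (φ : R →+* S) (i : ℕ) : Ex (sh C) φ (i + 1) ↔ Ex C φ i :=
  ⟨fun h x hx => h x ((mem_cyc_sh C φ i x).2 hx), fun h x hx => h x ((mem_cyc_sh C φ i x).1 hx)⟩

lemma ex_empty (C : Cx R) (φ : R →+* S) (i : ℕ) [IsEmpty (C.ι i)] : Ex C φ i :=
  fun _ _ => ⟨0, funext fun j => isEmptyElim j⟩

/-! ### resolutions of a module -/

section

variable (U : Type) [AddCommGroup U] [Module R U]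

/-- `P` is a free resolution of the module `U`, starting in degree `e` -/
structure Rs0 (P : Cx R) (e : ℕ) : Prop where
  low : ∀ k < e, IsEmpty (P.ι k)
  aug : ∃ ε : (P.ι e → R) →ₗ[R] U, Function.Surjective ε ∧ ∀ x, ε x = 0 ↔ ∃ y, y ᵥ* P.d e = x
  high : ∀ k, e < k → Ex P (RingHom.id R) k

/-- `P` is a free resolution of the module `U`, starting in degree `e`, and `S ⊗ P` is acyclic in the
degrees `≤ t` -/
structure Rs (φ : R →+* S) (P : Cx R) (e t : ℕ) : Prop extends Rs0 U P e where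
  tor : ∀ k ≤ t, Ex P φ k

/-- there is such a resolution starting in degree `0` -/
def TT (φ : R →+* S) (t : ℕ) : Prop := ∃ P : Cx R, Rs U φ P 0 t

variable {U}

lemma Rs.sh {φ : R →+* S} {P : Cx R} {e t : ℕ} (h : Rs U φ P e t) :
    Rs U φ (sh P) (e + 1) (t + 1) where
  low k hk := by
    cases k with
    | zero => infer_instance
    | succ k => exact h.low k (by omega)
  aug := h.aug
  high k hk := by
    cases k with
    | zero => exact absurd hk (by omega)
    | succ k => exact (ex_sh P _ k).2 (h.high k (by omega))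
  tor k hk := by
    cases k with
    | zero => exact ex_empty _ _ _
    | succ k => exact (ex_sh P _ k).2 (h.tor k (by omega))

lemma exists_shift {φ : R →+* S} {t : ℕ} (h : TT U φ t) (e : ℕ) :
    ∃ P : Cx R, Rs U φ P e (e + t) := by
  induction e with
  | zero => rw [Nat.zero_add]; exact h
  | succ e ih =>
    obtain ⟨P, hP⟩ := ih
    exact ⟨sh P, by rw [Nat.add_right_comm]; exact hP.sh⟩

variable (U)

/-- the homology of `C` in degree `k` is `U` -/
def HomIs (C : Cx R) (k : ℕ) : Prop :=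
  ∃ c : cyc C (RingHom.id R) k →ₗ[R] U, Function.Surjective c ∧
    ∀ x, c x = 0 ↔ ∃ y, y ᵥ* C.d k = x.1

end

/-! ### the fibre of a chain map -/

/-- the fibre of a chain map from `C` to the shift of `P` -/
def fib (C P : Cx R) (η : ∀ i, Matrix (C.ι (i + 1)) (P.ι i) R)
    (hη : ∀ i, C.d (i + 1) * η i = η (i + 1) * P.d i) : Cx R where
  ι i := C.ι i ⊕ P.ι i
  d i := Matrix.fromBlocks (C.d i) (η i) 0 (-(P.d i))
  dd i := by
    rw [Matrix.fromBlocks_multiply, C.dd, hη]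
    simp [P.dd]

section

variable {C P : Cx R} {η : ∀ i, Matrix (C.ι (i + 1)) (P.ι i) R}
  {hη : ∀ i, C.d (i + 1) * η i = η (i + 1) * P.d i}

lemma fib_vec (φ : R →+* S) (i : ℕ) (a : C.ι (i + 1) → S) (b : P.ι (i + 1) → S) :
    (show (fib C P η hη).ι (i + 1) → S from Sum.elim a b) ᵥ* ((fib C P η hη).d i).map φ =
      Sum.elim (a ᵥ* (C.d i).map φ) (a ᵥ* (η i).map φ - b ᵥ* (P.d i).map φ) := by
  have h1 : ((fib C P η hη).d i).map φ =
      Matrix.fromBlocks ((C.d i).map φ) ((η i).map φ) 0 (-((P.d i).map φ)) := by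
    change (Matrix.fromBlocks (C.d i) (η i) 0 (-(P.d i))).map φ = _
    rw [Matrix.fromBlocks_map]
    congr 1
    · ext; simp
    · ext; simp
  rw [h1]
  refine (Matrix.vecMul_fromBlocks _ _ _ _ _).trans ?_
  rw [Sum.elim_comp_inl, Sum.elim_comp_inr, Matrix.vecMul_zero, add_zero, Matrix.vecMul_neg,
    ← sub_eq_add_neg]

lemma exists_elim {α β γ : Type} (x : α ⊕ β → γ) : ∃ a b, x = Sum.elim a b :=
  ⟨x ∘ Sum.inl, x ∘ Sum.inr, (Sum.elim_comp_inl_inr x).symm⟩

lemma elim_inj {α β γ : Type} {a a' : α → γ} {b b' : β → γ} (h : Sum.elim a b = Sum.elim a' b') :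
    a = a' ∧ b = b' :=
  ⟨funext fun i => congrFun h (Sum.inl i), funext fun i => congrFun h (Sum.inr i)⟩

lemma mem_fib (φ : R →+* S) (i : ℕ) (a : C.ι (i + 1) → S) (b : P.ι (i + 1) → S) :
    (show (fib C P η hη).ι (i + 1) → S from Sum.elim a b) ∈ cyc (fib C P η hη) φ (i + 1) ↔
      a ᵥ* (C.d i).map φ = 0 ∧ a ᵥ* (η i).map φ = b ᵥ* (P.d i).map φ := by
  rw [mem_cyc_succ, fib_vec]
  constructor
  · intro h
    have h1 : (Sum.elim (a ᵥ* (C.d i).map φ) (a ᵥ* (η i).map φ - b ᵥ* (P.d i).map φ)) =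
        Sum.elim (0 : C.ι i → S) (0 : P.ι i → S) := by
      refine h.trans ?_
      funext j
      rcases j with j | j <;> rfl
    obtain ⟨h2, h3⟩ := elim_inj h1
    exact ⟨h2, sub_eq_zero.1 h3⟩
  · rintro ⟨h1, h2⟩
    rw [h1, h2, sub_self]
    funext j
    rcases j with j | j <;> rfl

lemma map_comm (hη : ∀ i, C.d (i + 1) * η i = η (i + 1) * P.d i) (φ : R →+* S) (i : ℕ) :
    (C.d (i + 1)).map φ * (η i).map φ = (η (i + 1)).map φ * (P.d i).map φ := by
  rw [← Matrix.map_mul, ← Matrix.map_mul, hη]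

lemma eta_mem (hη : ∀ i, C.d (i + 1) * η i = η (i + 1) * P.d i) (φ : R →+* S) (k : ℕ)
    {x : C.ι (k + 1) → S} (hx : x ᵥ* (C.d k).map φ = 0) : x ᵥ* (η k).map φ ∈ cyc P φ k := by
  cases k with
  | zero => trivial
  | succ k =>
    rw [mem_cyc_succ, Matrix.vecMul_vecMul, ← map_comm hη, ← Matrix.vecMul_vecMul, hx,
      Matrix.zero_vecMul]

/-- exactness of `C` from the one of the fibre and of `P` -/
theorem ex_base (φ : R →+* S) (k : ℕ) (h1 : Ex (fib C P η hη) φ (k + 1)) (h2 : Ex P φ k) :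
    Ex C φ (k + 1) := by
  intro x hx
  rw [mem_cyc_succ] at hx
  obtain ⟨w, hw⟩ := h2 _ (eta_mem hη φ k hx)
  obtain ⟨y, hy⟩ := h1 (Sum.elim x w) ((mem_fib φ k x w).2 ⟨hx, hw.symm⟩)
  obtain ⟨a, b, rfl⟩ := exists_elim y
  exact ⟨a, (elim_inj ((fib_vec φ (k + 1) a b).symm.trans hy)).1⟩

theorem ex_base_zero (φ : R →+* S) (h1 : Ex (fib C P η hη) φ 0) : Ex C φ 0 := by
  intro x hx
  obtain ⟨y, hy⟩ := h1 (Sum.elim x 0) trivial
  obtain ⟨a, b, rfl⟩ := exists_elim y
  exact ⟨a, (elim_inj ((fib_vec φ 0 a b).symm.trans hy)).1⟩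

/-- exactness of `P` from the one of the fibre and of `C` -/
theorem ex_top (φ : R →+* S) (k : ℕ) (h1 : Ex (fib C P η hη) φ k) (h2 : Ex C φ (k + 1)) :
    Ex P φ k := by
  intro w hw
  have h3 : (show (fib C P η hη).ι k → S from Sum.elim 0 w) ∈ cyc (fib C P η hη) φ k := by
    cases k with
    | zero => trivial
    | succ k =>
      refine (mem_fib φ k 0 w).2 ⟨Matrix.zero_vecMul _, ?_⟩
      rw [Matrix.zero_vecMul]
      exact ((mem_cyc_succ P φ k w).1 hw).symm
  obtain ⟨y, hy⟩ := h1 _ h3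
  obtain ⟨a, b, rfl⟩ := exists_elim y
  obtain ⟨h4, h5⟩ := elim_inj ((fib_vec φ k a b).symm.trans hy)
  obtain ⟨t, ht⟩ := h2 a h4
  refine ⟨t ᵥ* (η (k + 1)).map φ - b, ?_⟩
  rw [Matrix.sub_vecMul, Matrix.vecMul_vecMul, ← map_comm hη, ← Matrix.vecMul_vecMul, ht]
  exact h5

end

end

end Pool.Agent.V5helper81.ZN
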