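import Pool.Agent.V5helper81.ZN.Main

/-!
The definitions for the statement about amenable normal subgroups.
-/

set_option autoImplicit false
set_option linter.unusedSectionVars false

namespace Pool.Agent.V5helper81.ZN

open Pool.Agent.H919R4.ZS MonoidAlgebra Pool.Agent.R807.ZK

section

variable {G : Type} [Group G]

variable (N : Subgroup G) [N.Normal] (X : FinRes G) (q : ℕ)

/-- The boundaries in degree `q` of the complex `ℚ[G/N] ⊗_{ℤ[G]} X`, a submodule of the cycles. -/
noncomputable def bdN : Submodule (MonoidAlgebra ℚ (G ⧸ N)) (X.cyc (toRat N) q) :=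
  (LinearMap.range (X.del (toRat N) q)).submoduleOf (X.cyc (toRat N) q)

/-- The rational homology `H_q(N; ℚ)` of the normal subgroup `N` of `G` as a module over `ℚ[G/N]`: the
homology of `ℚ[G/N] ⊗_{ℤ[G]} X`, for a finite free resolution `X` of `ℤ` over `ℤ[G]`. -/
def HN : Type := X.cyc (toRat N) q ⧸ bdN N X q

noncomputable instance instAddHN : AddCommGroup (HN N X q) :=
  Submodule.Quotient.addCommGroup (bdN N X q)

noncomputable instance instModHN : Module (MonoidAlgebra ℚ (G ⧸ N)) (HN N X q) :=
  Submodule.Quotient.module (bdN N X q)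

/-- `H_q(N; ℚ)` is finite dimensional. (An additive isomorphism between rational vector spaces is
linear.) -/
def FiniteHomology : Prop := ∃ d : ℕ, Nonempty (HN N X q ≃+ (Fin d → ℚ))

variable {N X q}

/-- The `j`-th coordinate of `g • b_i`, where `b` is the basis of `H_q(N; ℚ)` which corresponds to the
standard basis under the isomorphism `e`. -/
noncomputable def entry {d : ℕ} (e : HN N X q ≃+ (Fin d → ℚ)) (g : G ⧸ N) (i j : Fin d) : ℚ :=
  e ((single g 1 : MonoidAlgebra ℚ (G ⧸ N)) • e.symm (Pi.single i 1)) j

variable (N X q)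

/-- The action of `G/N` on `H_q(N; ℚ)` has bounded factors: with respect to a suitable finite basis,
the elements of `G/N` act by block triangular matrices, and the entries in the diagonal blocks are
bounded. -/
def BoundedAction : Prop :=
  ∃ (d : ℕ) (e : HN N X q ≃+ (Fin d → ℚ)) (lev : Fin d → ℕ) (C : ℝ), ∀ (g : G ⧸ N) (i j : Fin d),
    (lev i < lev j → entry e g i j = 0) ∧ (lev i = lev j → |(entry e g i j : ℝ)| ≤ C)

variable {N X q}

/-- the linear isomorphism -/
noncomputable def toLin {d : ℕ} (e : HN N X q ≃+ (Fin d → ℚ)) :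
    X.homology (toRat N) q ≃ₗ[ℚ] (Fin d → ℚ) :=
  let e' : X.homology (toRat N) q ≃+ (Fin d → ℚ) := e
  { e'.toAddMonoidHom.toRatLinearMap with
    invFun := e'.symm
    left_inv := e'.left_inv
    right_inv := e'.right_inv }

theorem finite_of (h : FiniteHomology N X q) : FiniteDimensional ℚ (X.homology (toRat N) q) := by
  obtain ⟨d, ⟨e⟩⟩ := h
  exact LinearEquiv.finiteDimensional (toLin e).symm

theorem bounded_of (h : BoundedAction N X q) :
    BoundedFactors (G ⧸ N) (X.homology (toRat N) q) := by
  obtain ⟨d, e, lev, C, h⟩ := h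
  refine ⟨d, Module.Basis.ofEquivFun (toLin e), lev, C, fun g i j => ?_⟩
  have h1 : (Module.Basis.ofEquivFun (toLin e)).repr ((single g 1 : MonoidAlgebra ℚ (G ⧸ N)) •
      (Module.Basis.ofEquivFun (toLin e)) i) j = entry e g i j := by
    have h2 : (Module.Basis.ofEquivFun (toLin e)) i = (toLin e).symm (Pi.single i 1) := by
      rw [Module.Basis.coe_ofEquivFun]
    rw [h2]
    rfl
  rw [h1]
  exact h g i j

end

end Pool.Agent.V5helper81.ZN
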