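import Pool.Agent.V5helper81.ZN.Res

/-!
Bounded finite dimensional representations and the reduced group C*-algebra (Fell absorption).
-/

set_option autoImplicit false
set_option linter.unusedSectionVars false

open scoped Matrix ENNReal

namespace Pool.Agent.V5helper81.ZN

open Pool.Agent.H919R4.ZS MonoidAlgebra Pool.Agent.TH38.ZT Pool.Agent.R807.ZK

section

variable {Q : Type} [Group Q]

lemma op_ext {S T : Op Q} (h : ∀ x g, (S x).fn g = (T x).fn g) : S = T :=
  ContinuousLinearMap.ext fun x => Subtype.ext (funext fun g => h x g)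

lemma fn_add (x y : Hil Q) (g : Q) : (x + y).fn g = x.fn g + y.fn g := rfl
lemma fn_zero (g : Q) : (0 : Hil Q).fn g = 0 := rfl
lemma fn_smul (c : ℂ) (x : Hil Q) (g : Q) : (c • x).fn g = c * x.fn g := rfl
lemma fn_sum {α : Type} (s : Finset α) (f : α → Hil Q) (g : Q) :
    (∑ i ∈ s, f i).fn g = ∑ i ∈ s, (f i).fn g := by
  classical
  induction s using Finset.induction_on with
  | empty => simp [fn_zero]
  | insert a s ha ih => rw [Finset.sum_insert ha, Finset.sum_insert ha, fn_add, ih]
lemma fn_lreg (k : Q) (x : Hil Q) (g : Q) : (lreg k x).fn g = x.fn (k⁻¹ * g) := rfl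

/-! ### `ℚ[Q] → C*_r(Q)` -/

variable (Q) in
/-- `ℚ[Q] → B(ℓ²(Q))` -/
noncomputable def opQ : MonoidAlgebra ℚ Q →+* Op Q :=
  MonoidAlgebra.liftNCRingHom ((algebraMap ℂ (Op Q)).comp (algebraMap ℚ ℂ)) (lregHom Q)
    (fun x y => Algebra.commutes (algebraMap ℚ ℂ x) (lregHom Q y))

lemma opQ_single (g : Q) (r : ℚ) : opQ Q (single g r) = (r : ℂ) • lreg g := by
  change MonoidAlgebra.liftNC _ _ _ = _
  rw [MonoidAlgebra.liftNC_single]
  change (algebraMap ℂ (Op Q)) (algebraMap ℚ ℂ r) * lreg g = _
  rw [← Algebra.smul_def]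
  rfl

lemma opQ_mem (a : MonoidAlgebra ℚ Q) : opQ Q a ∈ redCstar Q := by
  refine Subring.le_topologicalClosure _ ?_
  refine MonoidAlgebra.induction_linear a ?_ ?_ ?_
  · rw [map_zero]; exact Subring.zero_mem _
  · intro x y hx hy
    rw [map_add]; exact Subring.add_mem _ hx hy
  · intro g r
    exact Subring.subset_closure ⟨(r : ℂ), g, opQ_single g r⟩

variable (Q) in
/-- `ℚ[Q] → C*_r(Q)` -/
noncomputable def toRedQ : MonoidAlgebra ℚ Q →+* RedC Q :=
  (opQ Q).codRestrict (redCstar Q) opQ_mem

lemma toRedQ_rat : (toRedQ Q).comp (rat Q) = toRed Q := by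
  refine hom_ext_single fun g => ?_
  refine Subtype.ext ?_
  change opQ Q (rat Q (single g 1)) = toOp Q (single g 1)
  rw [rat_single, opQ_single]
  have h := L_single (G := Q) g 1
  rw [one_smul] at h
  have h2 : toOp Q (single g 1) = lreg g := h
  rw [h2]
  simp

/-! ### multiplication operators -/

/-- the function is bounded -/
def Bd (f : Q → ℂ) : Prop := ∃ C : ℝ, ∀ g, ‖f g‖ ≤ C

lemma mem_mul (f : Q → ℂ) (hf : Bd f) (x : Hil Q) : Memℓp (fun h => f h * x.fn h) 2 := by
  obtain ⟨C, hC⟩ := hf
  have h1 : Memℓp ((C : ℂ) • x.fn) 2 := x.memlp.const_smul (C : ℂ)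
  refine h1.mono' fun i => ?_
  have h0 : 0 ≤ C := (norm_nonneg _).trans (hC i)
  rw [norm_mul, Pi.smul_apply, norm_smul, Complex.norm_real, Real.norm_of_nonneg h0]
  exact mul_le_mul_of_nonneg_right (hC i) (norm_nonneg _)

open Classical in
/-- the operator of multiplication by a bounded function -/
noncomputable def mulOp (f : Q → ℂ) : Op Q :=
  if hf : Bd f then
    LinearMap.mkContinuous
      { toFun := fun x => Hil.mk (fun h => f h * x.fn h) (mem_mul f hf x)
        map_add' := fun x y => Subtype.ext (funext fun g => mul_add _ _ _)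
        map_smul' := fun c x => Subtype.ext (funext fun g => mul_left_comm _ _ _) }
      hf.choose (by
        intro x
        have hC := hf.choose_spec
        have h0 : 0 ≤ hf.choose := (norm_nonneg _).trans (hC 1)
        have h1 : ‖(show lp (fun _ : Q => ℂ) 2 from
            Hil.mk (fun h => f h * x.fn h) (mem_mul f hf x))‖ ≤
            ‖((hf.choose : ℂ) • (show lp (fun _ : Q => ℂ) 2 from x))‖ := by
          refine lp.norm_mono (by norm_num) fun i => ?_
          change ‖f i * x.fn i‖ ≤ ‖(hf.choose : ℂ) * x.fn i‖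
          rw [norm_mul, norm_mul, Complex.norm_real, Real.norm_of_nonneg h0]
          exact mul_le_mul_of_nonneg_right (hC i) (norm_nonneg _)
        refine h1.trans (le_of_eq ?_)
        rw [norm_smul, Complex.norm_real, Real.norm_of_nonneg h0]
        rfl)
  else 0

lemma fn_mulOp {f : Q → ℂ} (hf : Bd f) (x : Hil Q) (g : Q) :
    (mulOp f x).fn g = f g * x.fn g := by
  rw [mulOp, dif_pos hf]
  rfl

/-! ### the homomorphism given by a bounded representation -/

variable {d : ℕ} (s : Q →* Matrix (Fin d) (Fin d) ℂ)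

/-- the representation is bounded -/
def BdR : Prop := ∀ a b, Bd fun g => s g a b

variable {s}

lemma BdR.inv (h : BdR s) (a b : Fin d) : Bd fun g => s g⁻¹ a b := by
  obtain ⟨C, hC⟩ := h a b
  exact ⟨C, fun g => hC g⁻¹⟩

variable (s)

/-- the operator `f ↦ s f` -/
noncomputable def Sm : Matrix (Fin d) (Fin d) (Op Q) := Matrix.of fun a b => mulOp fun g => s g a b

/-- the inverse operator -/
noncomputable def Sm' : Matrix (Fin d) (Fin d) (Op Q) :=
  Matrix.of fun a b => mulOp fun g => s g⁻¹ a b

lemma sum_op {α : Type} (t : Finset α) (f : α → Op Q) (x : Hil Q) :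
    (∑ i ∈ t, f i) x = ∑ i ∈ t, f i x := by
  rw [ContinuousLinearMap.sum_apply]

lemma Sm_mul (hs : BdR s) : Sm s * Sm' s = 1 := by
  ext1 a b
  rw [Matrix.mul_apply]
  refine op_ext fun x g => ?_
  rw [sum_op, fn_sum]
  have h1 : ∀ c, ((Sm s a c * Sm' s c b) x).fn g = s g a c * s g⁻¹ c b * x.fn g := by
    intro c
    change (mulOp _ (mulOp _ x)).fn g = _
    rw [fn_mulOp (hs a c), fn_mulOp (hs.inv c b), mul_assoc]
  simp only [h1]
  rw [← Finset.sum_mul, ← Matrix.mul_apply, ← map_mul, mul_inv_cancel, map_one, Matrix.one_apply,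
    Matrix.one_apply]
  split_ifs
  · rw [one_mul]; rfl
  · rw [zero_mul]; rfl

lemma Sm'_mul (hs : BdR s) : Sm' s * Sm s = 1 := by
  ext1 a b
  rw [Matrix.mul_apply]
  refine op_ext fun x g => ?_
  rw [sum_op, fn_sum]
  have h1 : ∀ c, ((Sm' s a c * Sm s c b) x).fn g = s g⁻¹ a c * s g c b * x.fn g := by
    intro c
    change (mulOp _ (mulOp _ x)).fn g = _
    rw [fn_mulOp (hs.inv a c), fn_mulOp (hs c b), mul_assoc]
  simp only [h1]
  rw [← Finset.sum_mul, ← Matrix.mul_apply, ← map_mul, inv_mul_cancel, map_one, Matrix.one_apply,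
    Matrix.one_apply]
  split_ifs
  · rw [one_mul]; rfl
  · rw [zero_mul]; rfl

/-- `x ↦ S x S⁻¹` -/
noncomputable def Th (hs : BdR s) : Op Q →+* Matrix (Fin d) (Fin d) (Op Q) where
  toFun x := Sm s * Matrix.scalar (Fin d) x * Sm' s
  map_one' := by rw [map_one, mul_one, Sm_mul s hs]
  map_zero' := by rw [map_zero, mul_zero, zero_mul]
  map_add' x y := by rw [map_add, mul_add, add_mul]
  map_mul' x y := by
    calc Sm s * Matrix.scalar (Fin d) (x * y) * Sm' s
        = Sm s * Matrix.scalar (Fin d) x * (1 : Matrix (Fin d) (Fin d) (Op Q)) *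
            Matrix.scalar (Fin d) y * Sm' s := by
          rw [map_mul, mul_one]
          simp only [mul_assoc]
      _ = _ := by
          rw [← Sm'_mul s hs]
          simp only [mul_assoc]

lemma Th_apply (hs : BdR s) (x : Op Q) (a b : Fin d) :
    Th s hs x a b = ∑ c, mulOp (fun g => s g a c) * x * mulOp (fun g => s g⁻¹ c b) := by
  change (Sm s * Matrix.scalar (Fin d) x * Sm' s) a b = _
  rw [Matrix.mul_apply]
  refine Finset.sum_congr rfl fun c _ => ?_
  rw [Matrix.scalar_apply, Matrix.mul_diagonal]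
  rfl

lemma Th_lreg (hs : BdR s) (g : Q) (a b : Fin d) : Th s hs (lreg g) a b = s g a b • lreg g := by
  rw [Th_apply]
  refine op_ext fun x h => ?_
  rw [sum_op, fn_sum]
  have h1 : ∀ c, ((mulOp (fun g => s g a c) * lreg g * mulOp (fun g => s g⁻¹ c b)) x).fn h =
      s h a c * s (h⁻¹ * g) c b * x.fn (g⁻¹ * h) := by
    intro c
    change (mulOp _ (lreg g (mulOp _ x))).fn h = _
    rw [fn_mulOp (hs a c), fn_lreg, fn_mulOp (hs.inv c b), mul_assoc, mul_inv_rev, inv_inv]
  simp only [h1]
  rw [← Finset.sum_mul, ← Matrix.mul_apply, ← map_mul, mul_inv_cancel_left]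
  rfl

lemma Th_cont (hs : BdR s) (a b : Fin d) : Continuous fun x => Th s hs x a b := by
  simp only [Th_apply]
  refine continuous_finsetSum _ fun c _ => ?_
  exact (continuous_const.mul continuous_id).mul continuous_const

lemma redCstar_smul (c : ℂ) {x : Op Q} (hx : x ∈ redCstar Q) : c • x ∈ redCstar Q := by
  have h1 : (c • (1 : Op Q)) ∈ redCstar Q := by
    refine Subring.le_topologicalClosure _ (Subring.subset_closure ⟨c, 1, ?_⟩)
    rw [← map_one (lregHom Q)]
    rfl
  have h2 : c • x = (c • (1 : Op Q)) * x := by rw [smul_mul_assoc, one_mul]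
  rw [h2]
  exact Subring.mul_mem _ h1 hx

lemma lreg_mem (g : Q) : lreg g ∈ redCstar Q :=
  Subring.le_topologicalClosure _ (Subring.subset_closure ⟨1, g, (one_smul _ _).symm⟩)

lemma redCstar_closed : IsClosed (redCstar Q : Set (Op Q)) :=
  Subring.isClosed_topologicalClosure _

/-- induction principle for the reduced group C*-algebra -/
lemma redCstar_le (B : Subring (Op Q)) (hB : IsClosed (B : Set (Op Q)))
    (h : ∀ (c : ℂ) (g : Q), c • lreg g ∈ B) : redCstar Q ≤ B := by
  refine Subring.topologicalClosure_minimal _ ?_ hB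
  refine (Subring.closure_le).2 ?_
  rintro _ ⟨c, g, rfl⟩
  exact h c g

lemma Th_smul (hs : BdR s) (c : ℂ) (x : Op Q) (a b : Fin d) :
    Th s hs (c • x) a b = c • Th s hs x a b := by
  rw [Th_apply, Th_apply, Finset.smul_sum]
  refine Finset.sum_congr rfl fun e _ => ?_
  rw [mul_smul_comm, smul_mul_assoc]

lemma Th_mem (hs : BdR s) {x : Op Q} (hx : x ∈ redCstar Q) (a b : Fin d) :
    Th s hs x a b ∈ redCstar Q := by
  let B : Subring (Op Q) :=
    { carrier := {x | ∀ a b, Th s hs x a b ∈ redCstar Q}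
      mul_mem' := by
        intro x y hx hy a b
        rw [map_mul, Matrix.mul_apply]
        exact Subring.sum_mem _ fun c _ => Subring.mul_mem _ (hx a c) (hy c b)
      one_mem' := by
        intro a b
        rw [map_one, Matrix.one_apply]
        split_ifs
        · exact Subring.one_mem _
        · exact Subring.zero_mem _
      add_mem' := by
        intro x y hx hy a b
        rw [map_add]
        exact Subring.add_mem _ (hx a b) (hy a b)
      zero_mem' := by
        intro a b
        rw [map_zero]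
        exact Subring.zero_mem _
      neg_mem' := by
        intro x hx a b
        rw [map_neg]
        exact Subring.neg_mem _ (hx a b) }
  have hB : IsClosed (B : Set (Op Q)) := by
    have h1 : (B : Set (Op Q)) =
        ⋂ a, ⋂ b, (fun x => Th s hs x a b) ⁻¹' (redCstar Q : Set (Op Q)) := by
      ext x
      simp only [Set.mem_iInter, Set.mem_preimage]
      exact Iff.rfl
    rw [h1]
    exact isClosed_iInter fun a => isClosed_iInter fun b =>
      redCstar_closed.preimage (Th_cont s hs a b)
  refine redCstar_le B hB ?_ hx a b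
  intro c g a b
  rw [Th_smul, Th_lreg]
  exact redCstar_smul _ (redCstar_smul _ (lreg_mem g))

variable (Q) in
/-- the inclusion -/
noncomputable def vR : RedC Q →+* Op Q := (redCstar Q).subtype

/-- the homomorphism `C*_r(Q) → M_d(C*_r(Q))`, `g ↦ s(g) g` -/
noncomputable def ThR (hs : BdR s) : RedC Q →+* Matrix (Fin d) (Fin d) (RedC Q) where
  toFun x := Matrix.of fun a b => (⟨Th s hs x.1 a b, Th_mem s hs x.2 a b⟩ : redCstar Q)
  map_one' := by
    ext1 a b
    refine Subtype.ext ?_
    change Th s hs 1 a b = _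
    rw [map_one, Matrix.one_apply, Matrix.one_apply]
    split_ifs <;> rfl
  map_zero' := by
    ext1 a b
    refine Subtype.ext ?_
    change Th s hs 0 a b = _
    rw [map_zero]
    rfl
  map_add' x y := by
    ext1 a b
    refine Subtype.ext ?_
    change Th s hs (x.1 + y.1) a b = _
    rw [map_add]
    rfl
  map_mul' x y := by
    ext1 a b
    refine Subtype.ext ?_
    change Th s hs (x.1 * y.1) a b = _
    rw [map_mul, Matrix.mul_apply, Matrix.mul_apply]
    let X : Fin d → RedC Q := fun j => (⟨Th s hs x.1 a j, Th_mem s hs x.2 a j⟩ : redCstar Q)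
    let Y : Fin d → RedC Q := fun j => (⟨Th s hs y.1 j b, Th_mem s hs y.2 j b⟩ : redCstar Q)
    have h : vR Q (∑ j, X j * Y j) = ∑ j, vR Q (X j) * vR Q (Y j) := by
      rw [map_sum]
      simp only [map_mul]
    exact h.symm

end

end Pool.Agent.V5helper81.ZN
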