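import Pool.Agent.V5helper81.ZN.Fell
import Pool.Agent.V5helper81.ZN.Ban

/-!
Arbitrary finite dimensional representations in degree zero.
-/

set_option autoImplicit false
set_option linter.unusedSectionVars false

open scoped Matrix ENNReal

namespace Pool.Agent.V5helper81.ZN

open Pool.Agent.H919R4.ZS MonoidAlgebra Pool.Agent.TH38.ZT Pool.Agent.R807.ZK

section

variable (Q : Type) [Group Q]

instance : CompleteSpace (Hil Q) := inferInstanceAs (CompleteSpace (lp (fun _ : Q => ℂ) 2))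

/-- `C*_r(Q)` as a complex algebra -/
noncomputable def RAlg : Subalgebra ℂ (Op Q) where
  carrier := redCstar Q
  mul_mem' := (redCstar Q).mul_mem
  add_mem' := (redCstar Q).add_mem
  algebraMap_mem' c := by
    rw [Algebra.algebraMap_eq_smul_one]
    exact redCstar_smul c (Subring.one_mem _)

instance : CompleteSpace (RAlg Q) :=
  (show IsClosed ((RAlg Q : Set (Op Q))) from redCstar_closed).completeSpace_coe

/-- the identity -/
def toA : RedC Q ≃+* RAlg Q where
  toFun x := ⟨x.1, x.2⟩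
  invFun x := (⟨x.1, x.2⟩ : redCstar Q)
  left_inv _ := rfl
  right_inv _ := rfl
  map_mul' _ _ := rfl
  map_add' _ _ := rfl

variable {Q}

/-- `ℂ[Q] → B(ℓ²(Q))` -/
noncomputable def opC : MonoidAlgebra ℂ Q →+* Op Q :=
  MonoidAlgebra.liftNCRingHom (algebraMap ℂ (Op Q)) (lregHom Q)
    (fun x y => Algebra.commutes x (lregHom Q y))

lemma opC_single (g : Q) (r : ℂ) : opC (single g r) = r • lreg g := by
  change MonoidAlgebra.liftNC _ _ _ = _
  rw [MonoidAlgebra.liftNC_single]
  change (algebraMap ℂ (Op Q)) r * lreg g = _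
  rw [← Algebra.smul_def]

lemma opC_mem (z : MonoidAlgebra ℂ Q) : opC z ∈ redCstar Q := by
  refine MonoidAlgebra.induction_linear z ?_ ?_ ?_
  · rw [map_zero]; exact Subring.zero_mem _
  · intro x y hx hy
    rw [map_add]; exact Subring.add_mem _ hx hy
  · intro g r
    rw [opC_single]
    exact redCstar_smul _ (lreg_mem g)

lemma groupRing_le {a : Op Q} (ha : a ∈ groupRing Q) : ∃ z, opC z = a := by
  have h : groupRing Q ≤ (opC (Q := Q)).range := by
    refine Subring.closure_le.2 ?_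
    rintro _ ⟨c, g, rfl⟩
    exact ⟨single g c, opC_single g c⟩
  exact h ha

lemma epsQ_sub {G : Type} [Group G] (X : FinRes G) (x y : Fin (X.n 0) → MonoidAlgebra ℚ Q) :
    epsQ X (x - y) = epsQ X x - epsQ X y := by
  simp only [epsQ, ← Finset.sum_sub_distrib]
  exact Finset.sum_congr rfl fun j _ => by rw [Pi.sub_apply, map_sub, sub_mul]

variable {d : ℕ} (s : Q →* Matrix (Fin d) (Fin d) ℚ)

lemma tw_zero (W : FinRes Q) (x : Fin (W.n 0) × Fin d → MonoidAlgebra ℚ Q)
    (h : ∀ c, epsQ W (Psi s c x) = 0) :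
    ∃ y, y ᵥ* fl ((DY W (MonoidHom.id Q) 0).map (tw s)) = x := by
  choose y hy using fun c => (YC_zero W (MonoidHom.id Q) Function.surjective_id _).1 (h c)
  refine ⟨∑ c, Phi s c (y c), ?_⟩
  rw [Phi_sum]
  simp only [hy]
  exact Phi_Psi s x

/-- a vector with one coordinate -/
def pt {I R : Type} [DecidableEq I] [Zero R] (i : I) (x : R) : I → R := fun j => if j = i then x else 0

/-- a vector with rational coordinates -/
noncomputable def cst {I : Type} (q : I → ℚ) : I → MonoidAlgebra ℚ Q := fun p => single 1 (q p)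

lemma Psi_sub {ι : Type} (c : Fin d) (x y : ι × Fin d → MonoidAlgebra ℚ Q) :
    Psi s c (x - y) = Psi s c x - Psi s c y := by
  funext k
  simp only [Psi, Pi.sub_apply, map_sub, Finset.sum_sub_distrib]

lemma Psi_pt {ι : Type} [DecidableEq ι] (c : Fin d) (k : ι) (a : Fin d) (x : MonoidAlgebra ℚ Q) :
    Psi s c (pt (k, a) x) = pt k (pm (fun g => s g⁻¹ a c) x) := by
  funext j
  simp only [Psi, pt, Prod.mk.injEq]
  rw [Finset.sum_eq_single a]
  · by_cases hj : j = k
    · rw [if_pos ⟨hj, rfl⟩, if_pos hj]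
    · rw [if_neg (fun h => hj h.1), if_neg hj, map_zero]
  · intro e _ he
    rw [if_neg (fun h => he h.2), map_zero]
  · intro h
    exact absurd (Finset.mem_univ _) h

lemma Psi_cst {ι : Type} (c : Fin d) (q : ι × Fin d → ℚ) :
    Psi s c (cst q) = cst (Q := Q) fun j => q (j, c) := by
  funext j
  simp only [Psi, cst, pm_single, inv_one, map_one, Matrix.one_apply]
  rw [Finset.sum_eq_single c]
  · rw [if_pos rfl, mul_one]
  · intro e _ he
    rw [if_neg he, mul_zero, MonoidAlgebra.single_zero]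
  · intro h
    exact absurd (Finset.mem_univ _) h

lemma eps_pt (W : FinRes Q) (k : Fin (W.n 0)) (x : MonoidAlgebra ℚ Q) :
    epsQ W (pt k x) = augQ Q x * (W.aug k : ℚ) := by
  rw [epsQ, Finset.sum_eq_single k]
  · rw [pt, if_pos rfl]
  · intro e _ he
    rw [pt, if_neg he, map_zero, zero_mul]
  · intro h
    exact absurd (Finset.mem_univ _) h

lemma eps_cst (W : FinRes Q) (f : Fin (W.n 0) → ℚ) :
    epsQ W (cst (Q := Q) f) = ∑ j, f j * (W.aug j : ℚ) := by
  simp only [epsQ, cst, augQ_single]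

/-- modulo boundaries, a translate of a basis vector is a combination of basis vectors -/
lemma rel (W : FinRes Q) (g : Q) (k : Fin (W.n 0)) (a : Fin d) :
    ∃ (y : Fin (W.n 1) × Fin d → MonoidAlgebra ℚ Q) (q : Fin (W.n 0) × Fin d → ℚ),
      y ᵥ* fl ((DY W (MonoidHom.id Q) 0).map (tw s)) = pt (k, a) (single g 1) - cst q := by
  obtain ⟨n, hn⟩ := exists_one W
  have h : ∀ c, epsQ W (Psi s c (pt (k, a) (single g 1) -
      cst fun p => n p.1 * ((W.aug k : ℚ) * s g⁻¹ a p.2))) = 0 := by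
    intro c
    rw [Psi_sub, Psi_pt, Psi_cst, epsQ_sub, eps_pt, eps_cst, pm_single, augQ_single]
    have h3 : ∑ j, n j * ((W.aug k : ℚ) * s g⁻¹ a c) * (W.aug j : ℚ) =
        (W.aug k : ℚ) * s g⁻¹ a c := by
      calc ∑ j, n j * ((W.aug k : ℚ) * s g⁻¹ a c) * (W.aug j : ℚ)
          = (∑ j, n j * (W.aug j : ℚ)) * ((W.aug k : ℚ) * s g⁻¹ a c) := by
            rw [Finset.sum_mul]
            exact Finset.sum_congr rfl fun j _ => by ring
        _ = _ := by rw [hn, one_mul]
    rw [h3]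
    ring
  obtain ⟨y, hy⟩ := tw_zero s W _ h
  exact ⟨y, _, hy⟩

/-- the matrix of the twisted complex over `C*_r(Q)` -/
noncomputable def Dm (W : FinRes Q) :
    Matrix (Fin (W.n 1) × Fin d) (Fin (W.n 0) × Fin d) (RAlg Q) :=
  (fl ((DY W (MonoidHom.id Q) 0).map (tw s))).map (fun x => toA Q (toRedQ Q x))

/-- the boundaries -/
noncomputable def JJ (W : FinRes Q) : Submodule ℂ (Fin (W.n 0) × Fin d → RAlg Q) where
  carrier := {x | ∃ y, y ᵥ* Dm s W = x}
  add_mem' := by
    rintro _ _ ⟨y, rfl⟩ ⟨y', rfl⟩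
    exact ⟨y + y', Matrix.add_vecMul _ _ _⟩
  zero_mem' := ⟨0, Matrix.zero_vecMul _⟩
  smul_mem' := by
    rintro c _ ⟨y, rfl⟩
    exact ⟨c • y, Matrix.smul_vecMul _ _ _⟩

lemma JJ_mul (W : FinRes Q) (a : RAlg Q) (x : Fin (W.n 0) × Fin d → RAlg Q) (hx : x ∈ JJ s W) :
    (fun i => a * x i) ∈ JJ s W := by
  obtain ⟨y, rfl⟩ := hx
  exact ⟨a • y, Matrix.smul_vecMul _ _ _⟩

lemma ex_of_JJ (W : FinRes Q) (h : JJ s W = ⊤) : Ex (twc s (QW W)) (toRedQ Q) 0 := by
  intro (x : Fin (W.n 0) × Fin d → RedC Q) _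
  obtain ⟨y, hy⟩ : (fun i => toA Q (x i)) ∈ JJ s W := by rw [h]; trivial
  refine ⟨fun i => (toA Q).symm (y i), ?_⟩
  change (fun i => (toA Q).symm (y i)) ᵥ*
    (fl ((DY W (MonoidHom.id Q) 0).map (tw s))).map (toRedQ Q) = x
  funext j
  refine (toA Q).injective ?_
  have h1 := congrFun hy j
  rw [← h1]
  simp only [Matrix.vecMul, dotProduct, map_sum, map_mul, RingEquiv.apply_symm_apply, Dm,
    Matrix.map_apply]

/-- the submodule spanned by the basis vectors -/
noncomputable def KK (W : FinRes Q) (d : ℕ) : Submodule ℂ (Fin (W.n 0) × Fin d → RAlg Q) :=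
  Submodule.span ℂ (Set.range fun i => Pi.single i 1)

instance (W : FinRes Q) : FiniteDimensional ℂ (KK W d) :=
  FiniteDimensional.span_of_finite ℂ (Set.finite_range _)

lemma single_mem (W : FinRes Q) (g : Q) (i : Fin (W.n 0) × Fin d) :
    (Pi.single i (⟨lreg g, lreg_mem g⟩ : RAlg Q) : Fin (W.n 0) × Fin d → RAlg Q) ∈
      JJ s W ⊔ KK W d := by
  obtain ⟨k, a⟩ := i
  obtain ⟨y, q, hy⟩ := rel s W g k a
  have h1 : (fun j => toA Q (toRedQ Q (y j))) ᵥ* Dm s W =
      fun j => toA Q (toRedQ Q ((pt (k, a) (single g 1) - cst q :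
        Fin (W.n 0) × Fin d → MonoidAlgebra ℚ Q) j)) := by
    funext j
    rw [← hy]
    simp only [Matrix.vecMul, dotProduct, map_sum, map_mul, Dm, Matrix.map_apply]
  have h2 : (Pi.single (k, a) (⟨lreg g, lreg_mem g⟩ : RAlg Q) : Fin (W.n 0) × Fin d → RAlg Q) =
      (fun j => toA Q (toRedQ Q ((pt (k, a) (single g 1) - cst q :
        Fin (W.n 0) × Fin d → MonoidAlgebra ℚ Q) j))) +
      ∑ p, (q p : ℂ) • (Pi.single p 1 : Fin (W.n 0) × Fin d → RAlg Q) := by
    funext j
    rw [Pi.add_apply, Pi.sub_apply, map_sub, map_sub, Finset.sum_apply]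
    have h3 : ∑ p, ((q p : ℂ) • (Pi.single p 1 : Fin (W.n 0) × Fin d → RAlg Q)) j =
        (q j : ℂ) • (1 : RAlg Q) := by
      rw [Finset.sum_eq_single j]
      · rw [Pi.smul_apply, Pi.single_eq_same]
      · intro p _ hp
        rw [Pi.smul_apply, Pi.single_eq_of_ne (Ne.symm hp), smul_zero]
      · intro h
        exact absurd (Finset.mem_univ _) h
    have h4 : toA Q (toRedQ Q (cst q j)) = (q j : ℂ) • (1 : RAlg Q) := by
      refine Subtype.ext ?_
      change opQ Q (single 1 (q j)) = (q j : ℂ) • (1 : Op Q)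
      rw [opQ_single]
      congr 1
      exact map_one (lregHom Q)
    rw [h3, h4, sub_add_cancel]
    by_cases hj : j = (k, a)
    · rw [hj, Pi.single_eq_same, pt, if_pos rfl]
      refine Subtype.ext ?_
      change lreg g = opQ Q (single g 1)
      rw [opQ_single, Rat.cast_one, one_smul]
    · rw [Pi.single_eq_of_ne hj, pt, if_neg hj, map_zero, map_zero]
  rw [h2, ← h1]
  refine Submodule.add_mem _ (Submodule.mem_sup_left ⟨_, rfl⟩) (Submodule.mem_sup_right ?_)
  exact Submodule.sum_mem _ fun p _ => Submodule.smul_mem _ _ (Submodule.subset_span ⟨p, rfl⟩)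

lemma opC_single_mem (W : FinRes Q) (z : MonoidAlgebra ℂ Q) (i : Fin (W.n 0) × Fin d) :
    (Pi.single i (⟨opC z, opC_mem z⟩ : RAlg Q) : Fin (W.n 0) × Fin d → RAlg Q) ∈
      JJ s W ⊔ KK W d := by
  refine MonoidAlgebra.induction_linear (motive := fun z =>
    (Pi.single i (⟨opC z, opC_mem z⟩ : RAlg Q) : Fin (W.n 0) × Fin d → RAlg Q) ∈
      JJ s W ⊔ KK W d) z ?_ ?_ ?_
  · have h : (⟨opC 0, opC_mem 0⟩ : RAlg Q) = 0 := Subtype.ext (map_zero opC)
    rw [h, Pi.single_zero]
    exact Submodule.zero_mem _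
  · intro x y hx hy
    have h : (⟨opC (x + y), opC_mem (x + y)⟩ : RAlg Q) =
        ⟨opC x, opC_mem x⟩ + ⟨opC y, opC_mem y⟩ := Subtype.ext (map_add opC x y)
    rw [h, Pi.single_add]
    exact Submodule.add_mem _ hx hy
  · intro g r
    have h : (⟨opC (single g r), opC_mem _⟩ : RAlg Q) = r • ⟨lreg g, lreg_mem g⟩ :=
      Subtype.ext (opC_single g r)
    rw [h, Pi.single_smul]
    exact Submodule.smul_mem _ _ (single_mem s W g i)

lemma dense_sup (W : FinRes Q) :
    Dense ((JJ s W ⊔ KK W d : Submodule ℂ (Fin (W.n 0) × Fin d → RAlg Q)) :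
      Set (Fin (W.n 0) × Fin d → RAlg Q)) := by
  have h1 : Dense {a : RAlg Q | a.1 ∈ groupRing Q} := by
    intro a
    rw [closure_subtype]
    have h2 : (Subtype.val '' {a : RAlg Q | a.1 ∈ groupRing Q}) = (groupRing Q : Set (Op Q)) := by
      ext x
      constructor
      · rintro ⟨a, ha, rfl⟩
        exact ha
      · intro hx
        exact ⟨⟨x, Subring.le_topologicalClosure _ hx⟩, hx, rfl⟩
    rw [h2]
    exact a.2
  refine (dense_pi Set.univ (s := fun _ : Fin (W.n 0) × Fin d =>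
    {a : RAlg Q | a.1 ∈ groupRing Q}) fun _ _ => h1).mono ?_
  intro x hx
  rw [← Finset.univ_sum_single x]
  refine Submodule.sum_mem _ fun i _ => ?_
  obtain ⟨z, hz⟩ := groupRing_le (hx i trivial)
  have h3 : x i = ⟨opC z, opC_mem z⟩ := Subtype.ext hz.symm
  rw [h3]
  exact opC_single_mem s W z i

lemma norm_lreg_le (g : Q) : ‖(lreg g : Op Q)‖ ≤ 1 :=
  LinearMap.mkContinuous_norm_le _ zero_le_one _

/-- failure of the vanishing for a twisted complex gives a representation of `C*_r(Q)` -/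
theorem exists_rep_redC (W : FinRes Q) (h : ¬ Ex (twc s (QW W)) (toRedQ Q) 0) :
    ∃ (D : ℕ) (σ : RedC Q →+* Matrix (Fin D) (Fin D) ℂ) (C : ℝ), 0 < D ∧
      (∀ g i j, ‖σ (toRed Q (single g 1)) i j‖ ≤ C) ∧
      ∀ (c : ℂ) (x y : RedC Q), vR Q y = c • vR Q x → σ y = c • σ x := by
  obtain ⟨D, σ, C, hD, hC, hσ, hlin⟩ := exists_rep (JJ s W) (JJ_mul s W) (fun hJ => h (ex_of_JJ s W hJ))
    (KK W d) (dense_sup s W)
  refine ⟨D, σ.comp (toA Q).toRingHom, C, hD, fun g i j => ?_, fun c x y hxy => ?_⟩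
  swap
  · have h1 : (toA Q).toRingHom y = c • (toA Q).toRingHom x := Subtype.ext hxy
    rw [RingHom.comp_apply, RingHom.comp_apply, h1, hlin]
  refine (hσ _ i j).trans ?_
  have h1 : ‖(toA Q).toRingHom (toRed Q (single g 1))‖ ≤ 1 := by
    have h2 : ((toA Q).toRingHom (toRed Q (single g 1))).1 = (lreg g : Op Q) := by
      have h3 := L_single (G := Q) g 1
      rw [one_smul] at h3
      exact h3
    change ‖((toA Q).toRingHom (toRed Q (single g 1))).1‖ ≤ 1
    rw [h2]
    exact norm_lreg_le g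
  calc C * ‖(toA Q).toRingHom (toRed Q (single g 1))‖ ≤ C * 1 :=
        mul_le_mul_of_nonneg_left h1 hC
    _ = C := mul_one C

end

end Pool.Agent.V5helper81.ZN
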