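import Pool.Agent.V5helper81.ZN.Cx

/-!
The lowest homology module is killed by attaching a resolution of it.
-/

set_option autoImplicit false
set_option linter.unusedSectionVars false

open scoped Matrix

namespace Pool.Agent.V5helper81.ZN

open Pool.Agent.TH38.ZT (dep_seq)

variable {R : Type} [Ring R] {S : Type} [Ring S]

lemma pick {α β U : Type} [Fintype α] [DecidableEq α] [Fintype β] [AddCommGroup U] [Module R U]
    (ε : (β → R) →ₗ[R] U) (hε : Function.Surjective ε) (f : (α → R) →ₗ[R] U) :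
    ∃ M : Matrix α β R, ∀ x, ε (x ᵥ* M) = f x := by
  choose M hM using fun k : α => hε (f (Pi.single k 1))
  refine ⟨Matrix.of M, fun x => ?_⟩
  have h1 : x ᵥ* Matrix.of M = ∑ i, x i • M i := by
    funext j
    simp [Matrix.vecMul, dotProduct, Finset.sum_apply]
  have h2 : x = ∑ i, x i • (Pi.single i 1 : α → R) := by
    funext j
    simp [Finset.sum_apply, Pi.single_apply]
  rw [h1, map_sum]
  conv_rhs => rw [h2]
  rw [map_sum]
  refine Finset.sum_congr rfl fun i _ => ?_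
  rw [map_smul, map_smul, hM]

/-- construction of the chain map -/
theorem exists_eta (C P : Cx R) {U : Type} [AddCommGroup U] [Module R U] (e : ℕ)
    (hlow : ∀ k < e, IsEmpty (P.ι k))
    (ε : (P.ι e → R) →ₗ[R] U) (hε : Function.Surjective ε)
    (hε0 : ∀ x, ε x = 0 ↔ ∃ y, y ᵥ* P.d e = x)
    (hP : ∀ k, e < k → Ex P (RingHom.id R) k)
    (f : (C.ι (e + 1) → R) →ₗ[R] U) (hf : ∀ x, f (x ᵥ* C.d (e + 1)) = 0) :
    ∃ η : ∀ i, Matrix (C.ι (i + 1)) (P.ι i) R,
      (∀ i, C.d (i + 1) * η i = η (i + 1) * P.d i) ∧ ∀ x, ε (x ᵥ* η e) = f x := by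
  have mk_e : ∃ M : Matrix (C.ι (e + 1)) (P.ι e) R, (∀ x, ε (x ᵥ* M) = f x) ∧
      ∀ k, ∃ y, y ᵥ* P.d e = (C.d (e + 1) * M) k := by
    obtain ⟨M, hM⟩ := pick ε hε f
    refine ⟨M, hM, fun k => (hε0 _).1 ?_⟩
    rw [Matrix.mul_apply_eq_vecMul, hM]
    have h1 := hf (Pi.single k 1)
    rwa [Matrix.single_one_vecMul] at h1
  obtain ⟨F, hF0, hF⟩ := dep_seq
    (α := fun i => {η : Matrix (C.ι (i + 1)) (P.ι i) R //
      (∀ k, ∃ y, y ᵥ* P.d i = (C.d (i + 1) * η) k) ∧
      ∀ M : Matrix (C.ι (e + 1)) (P.ι e) R, i = e → HEq η M → ∀ x, ε (x ᵥ* M) = f x})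
    (fun i η η' => C.d (i + 1) * η.1 = η'.1 * P.d i)
    (Classical.choice (by
      rcases Nat.eq_zero_or_pos e with h | h
      · subst h
        obtain ⟨M, hM, hM'⟩ := mk_e
        refine ⟨⟨M, hM', fun M' _ hh => ?_⟩⟩
        obtain rfl := eq_of_heq hh
        exact hM
      · haveI := hlow 0 h
        exact ⟨⟨0, fun k => ⟨0, funext fun j => isEmptyElim j⟩, fun M' h' => by omega⟩⟩)) (by
      rintro i ⟨η, hη, -⟩
      rcases lt_trichotomy (i + 1) e with h | h | h
      · haveI := hlow i (by omega)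
        haveI := hlow (i + 1) h
        refine ⟨⟨0, fun k => ⟨0, funext fun j => isEmptyElim j⟩, fun M' h' => by omega⟩, ?_⟩
        exact funext fun k => funext fun j => isEmptyElim j
      · subst h
        haveI := hlow i (by omega)
        obtain ⟨M, hM, hM'⟩ := mk_e
        refine ⟨⟨M, hM', fun M' _ hh => ?_⟩, ?_⟩
        · obtain rfl := eq_of_heq hh
          exact hM
        · exact funext fun k => funext fun j => isEmptyElim j
      · obtain ⟨η', hη'⟩ := exists_rows' (P.d i) (C.d (i + 1) * η) hη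
        refine ⟨⟨η', fun k => ?_, fun M' h' => by omega⟩, hη'.symm⟩
        refine hP (i + 1) h _ (row_cyc P (RingHom.id R) i _ ?_ k)
        rw [map_id_eq, Matrix.mul_assoc, hη', ← Matrix.mul_assoc, C.dd, Matrix.zero_mul])
  exact ⟨fun i => (F i).1, hF, (F e).2.2 _ rfl HEq.rfl⟩

/-- killing the lowest homology module -/
theorem kill_step {U : Type} [AddCommGroup U] [Module R U] (φ : R →+* S) (C P : Cx R) (e : ℕ)
    (hC : ∀ k ≤ e, Ex C (RingHom.id R) k) (hU : HomIs U C (e + 1)) (hP : Rs0 U P e) :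
    ∃ F : Cx R, (∀ k ≤ e + 1, Ex F (RingHom.id R) k) ∧
      (∀ k, e + 1 < k → ∀ (V : Type) [AddCommGroup V] [Module R V], HomIs V C k → HomIs V F k) ∧
      (∀ k, Ex F φ (k + 1) → Ex P φ k → Ex C φ (k + 1)) ∧ (Ex F φ 0 → Ex C φ 0) ∧
      ∀ k, Ex F φ k → Ex C φ (k + 1) → Ex P φ k := by
  obtain ⟨c, hc, hc0⟩ := hU
  obtain ⟨ε, hε, hε0⟩ := hP.aug
  obtain ⟨s, -, hs, -⟩ := contraction C e hC
  have hr : (1 - C.d e * s e) * C.d e = 0 := by
    rw [Matrix.sub_mul, Matrix.one_mul, hs e le_rfl, sub_self]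
  have hr' : ∀ x : C.ι (e + 1) → R, x ᵥ* (1 - C.d e * s e) ∈ cyc C (RingHom.id R) (e + 1) := by
    intro x
    rw [mem_cyc_succ, map_id_eq, Matrix.vecMul_vecMul, hr, Matrix.vecMul_zero]
  have hr2 : ∀ x : C.ι (e + 1) → R, x ᵥ* C.d e = 0 → x ᵥ* (1 - C.d e * s e) = x := by
    intro x hx
    rw [Matrix.vecMul_sub, Matrix.vecMul_one, ← Matrix.vecMul_vecMul, hx, Matrix.zero_vecMul,
      sub_zero]
  let f : (C.ι (e + 1) → R) →ₗ[R] U :=
    c.comp ((1 - C.d e * s e).vecMulLinear.codRestrict (cyc C (RingHom.id R) (e + 1)) hr')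
  have hfc : ∀ x (hx : x ∈ cyc C (RingHom.id R) (e + 1)), f x = c ⟨x, hx⟩ := by
    intro x hx
    change c _ = c _
    congr 1
    exact Subtype.ext (hr2 x hx)
  have hf : ∀ x, f (x ᵥ* C.d (e + 1)) = 0 := by
    intro x
    exact (hfc _ (bd_mem C (RingHom.id R) (e + 1) x)).trans ((hc0 _).2 ⟨x, rfl⟩)
  obtain ⟨η, hη, hηe⟩ := exists_eta C P e hP.low ε hε hε0 hP.high f hf
  have hhigh : ∀ k, e < k → ∀ x ∈ cyc P (RingHom.id R) k, ∃ y, y ᵥ* P.d k = x := hP.high
  refine ⟨fib C P η hη, ?_, ?_, fun k => ex_base φ k, ex_base_zero φ, fun k => ex_top φ k⟩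
  · intro k hk x hx
    obtain ⟨a, b, rfl⟩ := exists_elim x
    have ha : a ∈ cyc C (RingHom.id R) k := by
      cases k with
      | zero => trivial
      | succ k => exact ((mem_fib (RingHom.id R) k a b).1 hx).1
    rcases Nat.lt_or_ge k e with h | h
    · haveI := hP.low k h
      obtain ⟨y, hy⟩ := hC k (by omega) a ha
      refine ⟨Sum.elim y 0, (fib_vec (RingHom.id R) k y 0).trans ?_⟩
      rw [hy]
      congr 1
      exact funext fun j => isEmptyElim j
    · rcases Nat.eq_or_lt_of_le h with h | h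
      · subst h
        obtain ⟨y, hy⟩ := hC e le_rfl a ha
        obtain ⟨z, hz⟩ := hc (ε (b - y ᵥ* η e))
        have h1 : ε (z.1 ᵥ* η e - (b - y ᵥ* η e)) = 0 := by
          rw [map_sub, hηe, hfc z.1 z.2, hz, sub_self]
        obtain ⟨t', ht'⟩ := (hε0 _).1 h1
        have hz0 : z.1 ᵥ* C.d e = 0 := z.2
        refine ⟨Sum.elim (y + z.1) t', (fib_vec (RingHom.id R) e _ _).trans ?_⟩
        simp only [map_id_eq] at hy ⊢
        rw [Matrix.add_vecMul, Matrix.add_vecMul, hz0, ht', hy, add_zero]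
        congr 1
        abel
      · obtain rfl : k = e + 1 := by omega
        obtain ⟨h2, h3⟩ := (mem_fib (RingHom.id R) e a b).1 hx
        simp only [map_id_eq] at h2 h3
        have h4 : f a = 0 := by rw [← hηe, (hε0 _).2 ⟨b, h3.symm⟩]
        rw [hfc a ha, hc0] at h4
        obtain ⟨y, hy⟩ := h4
        have hy' : y ᵥ* C.d (e + 1) = a := hy
        obtain ⟨t', ht'⟩ := hhigh (e + 1) (by omega) (y ᵥ* η (e + 1) - b) (by
          rw [mem_cyc_succ, map_id_eq, Matrix.sub_vecMul, Matrix.vecMul_vecMul, ← hη,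
            ← Matrix.vecMul_vecMul, hy', h3, sub_self])
        refine ⟨Sum.elim y t', (fib_vec (RingHom.id R) (e + 1) _ _).trans ?_⟩
        simp only [map_id_eq]
        rw [hy', ht', sub_sub_cancel]
  · intro k hk V _ _ hV
    obtain ⟨k, rfl⟩ : ∃ k', k = k' + 1 := ⟨k - 1, by omega⟩
    obtain ⟨v, hv, hv0⟩ := hV
    have hpr : ∀ x ∈ cyc (fib C P η hη) (RingHom.id R) (k + 1),
        LinearMap.funLeft R R Sum.inl x ∈ cyc C (RingHom.id R) (k + 1) := by
      intro x hx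
      obtain ⟨a, b, rfl⟩ := exists_elim x
      exact ((mem_fib (RingHom.id R) k a b).1 hx).1
    refine ⟨v.comp ((LinearMap.funLeft R R Sum.inl).restrict hpr), ?_, ?_⟩
    · intro u
      obtain ⟨x, hx⟩ := hv u
      have hx0 : x.1 ᵥ* C.d k = 0 := x.2
      obtain ⟨w, hw⟩ := hhigh k (by omega) _ (eta_mem hη (RingHom.id R) k hx0)
      refine ⟨⟨Sum.elim x.1 w, (mem_fib (RingHom.id R) k x.1 w).2 ⟨hx0, hw.symm⟩⟩, ?_⟩
      rw [← hx]
      rfl
    · rintro ⟨x, hx⟩
      obtain ⟨a, b, rfl⟩ := exists_elim x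
      obtain ⟨h2, h3⟩ := (mem_fib (RingHom.id R) k a b).1 hx
      simp only [map_id_eq] at h2 h3
      refine Iff.trans (show v ⟨a, h2⟩ = 0 ↔ _ from hv0 ⟨a, h2⟩) ?_
      constructor
      · rintro ⟨y, hy⟩
        have hy' : y ᵥ* C.d (k + 1) = a := hy
        obtain ⟨t', ht'⟩ := hhigh (k + 1) (by omega) (y ᵥ* η (k + 1) - b) (by
          rw [mem_cyc_succ, map_id_eq, Matrix.sub_vecMul, Matrix.vecMul_vecMul, ← hη,
            ← Matrix.vecMul_vecMul, hy', h3, sub_self])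
        refine ⟨Sum.elim y t', (fib_vec (RingHom.id R) (k + 1) _ _).trans ?_⟩
        simp only [map_id_eq]
        rw [hy', ht', sub_sub_cancel]
      · rintro ⟨y, hy⟩
        obtain ⟨a', b', rfl⟩ := exists_elim y
        exact ⟨a', (elim_inj ((fib_vec (RingHom.id R) (k + 1) a' b').symm.trans hy)).1⟩

/-- the homology of `C` consists of modules with vanishing torsion products -/
theorem kill (φ : R →+* S) (m : ℕ) : ∀ (n j : ℕ) (C : Cx R), 1 ≤ j → j + n = m + 1 →
    (∀ k < j, Ex C (RingHom.id R) k) →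
    (∀ k, j ≤ k → k ≤ m → ∃ (U : Type) (_ : AddCommGroup U) (_ : Module R U),
      HomIs U C k ∧ TT U φ (m - k)) → ∀ k ≤ m, Ex C φ k := by
  intro n
  induction n with
  | zero =>
    intro j C _ hj hC _
    exact ex_of_ex C φ m fun i hi => hC i (by omega)
  | succ n ih =>
    intro j C hj1 hj hC hH
    obtain ⟨e, rfl⟩ : ∃ e, j = e + 1 := ⟨j - 1, by omega⟩
    obtain ⟨U, _, _, hU, hT⟩ := hH (e + 1) le_rfl (by omega)
    obtain ⟨P, hP⟩ := exists_shift hT e
    obtain ⟨F, hF1, hF2, hF3, hF4, -⟩ := kill_step φ C P e (fun k hk => hC k (by omega)) hU hP.toRs0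
    have h := ih (e + 1 + 1) F (by omega) (by omega) (fun k hk => hF1 k (by omega)) (by
      intro k hk hkm
      obtain ⟨V, i1, i2, hV, hV'⟩ := hH k (by omega) hkm
      exact ⟨V, i1, i2, hF2 k (by omega) V hV, hV'⟩)
    intro k hk
    cases k with
    | zero => exact hF4 (h 0 hk)
    | succ k => exact hF3 k (h (k + 1) hk) (hP.tor k (by omega))

end Pool.Agent.V5helper81.ZN
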