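import Pool.Agent.V5helper81.ZN.Van

/-!
Amenable normal subgroups with finite dimensional rational homology.
-/

set_option autoImplicit false
set_option linter.unusedSectionVars false

open scoped Matrix ENNReal

namespace Pool.Agent.V5helper81.ZN

open Pool.Agent.H919R4.ZS MonoidAlgebra Pool.Agent.TH38.ZT Pool.Agent.R807.ZK
open Pool.Agent.H496R3.ZS (IsAmenable)

section

variable {Q : Type} [Group Q] {U : Type} [AddCommGroup U] [Module (MonoidAlgebra ℚ Q) U]
  [Module ℚ U] [IsScalarTower ℚ (MonoidAlgebra ℚ Q) U]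

theorem tt_zero [FiniteDimensional ℚ U] (W : FinRes Q) (hW : ExAt W (toRed Q) 0) :
    TT U (toRedQ Q) 0 := by
  refine rs_of (Module.finBasis ℚ U) W (toRedQ Q) 0 fun k hk => ?_
  obtain rfl : k = 0 := by omega
  exact ex_zero _ W hW

/-- the diagonal blocks of a block triangular representation -/
noncomputable def diagRep {d : ℕ} (s : Q →* Matrix (Fin d) (Fin d) ℚ) (lev : Fin d → ℕ)
    (h : ∀ g a b, lev a < lev b → s g a b = 0) : Q →* Matrix (Fin d) (Fin d) ℚ where
  toFun g := Matrix.of fun a b => if lev a = lev b then s g a b else 0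
  map_one' := by
    ext a b
    rw [Matrix.of_apply, map_one, Matrix.one_apply]
    by_cases hab : a = b
    · subst hab
      simp
    · simp [hab]
  map_mul' g k := by
    ext a b
    rw [Matrix.of_apply, map_mul, Matrix.mul_apply, Matrix.mul_apply]
    simp only [Matrix.of_apply]
    by_cases hab : lev a = lev b
    · rw [if_pos hab]
      refine Finset.sum_congr rfl fun c _ => ?_
      by_cases hac : lev a = lev c
      · rw [if_pos hac, if_pos (hac.symm.trans hab)]
      · rw [if_neg hac, zero_mul]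
        rcases lt_or_gt_of_ne hac with h1 | h1
        · rw [h g a c h1, zero_mul]
        · rw [h k c b (by omega), mul_zero]
    · rw [if_neg hab]
      refine (Finset.sum_eq_zero fun c _ => ?_).symm
      by_cases hac : lev a = lev c
      · rw [if_neg (show ¬ lev c = lev b by omega), mul_zero]
      · rw [if_neg hac, zero_mul]

/-- The group `Q` acts on the finite dimensional rational vector space `V` with bounded factors: with
respect to a suitable basis, the elements of `Q` act by block triangular matrices, and the entries in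
the diagonal blocks are bounded. -/
def BoundedFactors (Q V : Type) [Group Q] [AddCommGroup V] [Module (MonoidAlgebra ℚ Q) V]
    [Module ℚ V] : Prop :=
  ∃ (d : ℕ) (b : Module.Basis (Fin d) ℚ V) (lev : Fin d → ℕ) (C : ℝ), ∀ (g : Q) (i j : Fin d),
    (lev i < lev j → b.repr ((single g 1 : MonoidAlgebra ℚ Q) • b i) j = 0) ∧
    (lev i = lev j → |((b.repr ((single g 1 : MonoidAlgebra ℚ Q) • b i) j : ℚ) : ℝ)| ≤ C)

theorem tt_bounded (hU : BoundedFactors Q U) (W : FinRes Q) (p : ℕ)
    (hW : ∀ k ≤ p, ExAt W (toRed Q) k) : TT U (toRedQ Q) p := by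
  obtain ⟨d, b, lev, C, hb⟩ := hU
  have h1 : ∀ g a c, lev a < lev c → rp b g a c = 0 := fun g a c h => (hb g⁻¹ a c).1 h
  refine rs_of b W (toRedQ Q) p fun k hk => ?_
  refine ex_level (rp b) (QW W) (toRedQ Q) (diagRep (rp b) lev h1) lev h1 ?_ ?_ k ?_
  · intro g a c h
    exact if_pos h
  · intro g a c h
    exact if_neg h
  · refine ex_bounded (diagRep (rp b) lev h1) ?_ W p hW k hk
    intro a c
    refine ⟨|C|, fun g => ?_⟩
    change ‖(((if lev a = lev c then rp b g a c else 0 : ℚ)) : ℂ)‖ ≤ |C|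
    split_ifs with h
    · have h2 := (hb g⁻¹ a c).2 h
      have h3 : ‖((rp b g a c : ℚ) : ℂ)‖ = |((rp b g a c : ℚ) : ℝ)| := by
        rw [← Complex.ofReal_ratCast, Complex.norm_real, Real.norm_eq_abs]
      rw [h3]
      exact h2.trans (le_abs_self C)
    · simp

end

/-! ### the trivial module -/

section

variable (Q : Type) [Group Q]

/-- the trivial module `ℚ` -/
def Tv (_ : Type) : Type := ℚ

noncomputable instance : AddCommGroup (Tv Q) := inferInstanceAs (AddCommGroup ℚ)

noncomputable instance : Module (MonoidAlgebra ℚ Q) (Tv Q) := Module.compHom ℚ (augQ Q)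

variable {Q}

lemma Tv_smul (r : MonoidAlgebra ℚ Q) (x : ℚ) : (r • (show Tv Q from x) : Tv Q) = augQ Q r * x :=
  rfl

variable {G : Type} [Group G] (X : FinRes G) (f : G →* Q)

/-- the augmentation -/
noncomputable def epsL : (Fin (X.n 0) → MonoidAlgebra ℚ Q) →ₗ[MonoidAlgebra ℚ Q] Tv Q where
  toFun x := epsQ X x
  map_add' x y := epsQ_add X x y
  map_smul' r x := epsQ_smul X r x

lemma epsL_surj : Function.Surjective (epsL (Q := Q) X) := by
  intro (r : ℚ)
  obtain ⟨n, hn⟩ := exists_one X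
  refine ⟨fun j => single 1 (r * n j), ?_⟩
  change epsQ X (fun j => (single 1 (r * n j) : MonoidAlgebra ℚ Q)) = r
  simp only [epsQ, augQ_single]
  rw [Finset.sum_congr rfl fun j _ => mul_assoc _ _ _, ← Finset.mul_sum, hn, mul_one]

lemma rs0_triv (W : FinRes Q) : Rs0 (Tv Q) (QW W) 0 where
  low k hk := absurd hk (Nat.not_lt_zero k)
  aug := ⟨epsL W, epsL_surj W, fun x => YC_zero W (MonoidHom.id Q) Function.surjective_id x⟩
  high k hk := by
    obtain ⟨k, rfl⟩ : ∃ k', k = k' + 1 := ⟨k - 1, by omega⟩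
    exact QW_ex W k

lemma hom_triv (hf : Function.Surjective f) : HomIs (Tv Q) (sh (YC X f)) 1 := by
  refine ⟨(epsL X).comp (cyc (sh (YC X f)) (RingHom.id _) 1).subtype, ?_, ?_⟩
  · intro r
    obtain ⟨x, hx⟩ := epsL_surj X r
    refine ⟨⟨x, (mem_cyc_sh (YC X f) (RingHom.id _) 0 x).2 trivial⟩, hx⟩
  · intro x
    exact YC_zero X f hf x.1

end

section

variable {G : Type} [Group G] (N : Subgroup G) [N.Normal]

lemma hom_high (X : FinRes G) (q : ℕ) :
    HomIs (X.homology (toRat N) (q + 1)) (sh (YC X (QuotientGroup.mk' N))) (q + 1 + 1) := by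
  let c : cyc (sh (YC X (QuotientGroup.mk' N))) (RingHom.id _) (q + 1 + 1) →ₗ[
      MonoidAlgebra ℚ (G ⧸ N)] X.homology (toRat N) (q + 1) :=
    { toFun := fun x => Submodule.Quotient.mk (⟨x.1, x.2⟩ : X.cyc (toRat N) (q + 1))
      map_add' := fun x y => rfl
      map_smul' := fun r x => rfl }
  refine ⟨c, ?_, ?_⟩
  · intro u
    obtain ⟨x, rfl⟩ := Submodule.Quotient.mk_surjective _ u
    exact ⟨⟨x.1, x.2⟩, rfl⟩
  · intro x
    exact Submodule.Quotient.mk_eq_zero _

lemma toQuot_eq (X : FinRes G) (k : ℕ) :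
    (DY X (QuotientGroup.mk' N) k).map (toRedQ (G ⧸ N)) = (X.d k).map (toQuot N) := by
  have h : (toRedQ (G ⧸ N)).comp ((rat (G ⧸ N)).comp (gmap (QuotientGroup.mk' N))) = toQuot N := by
    rw [toQuot, ← toRedQ_rat]
    rfl
  rw [← h]
  rfl

lemma ex_YC (X : FinRes G) (k : ℕ) (h : ExAt X (toQuot N) k) :
    Ex (YC X (QuotientGroup.mk' N)) (toRedQ (G ⧸ N)) k := by
  cases k with
  | zero =>
    intro (x : Fin (X.n 0) → RedC (G ⧸ N)) _
    obtain ⟨y, hy⟩ := h x
    refine ⟨y, ?_⟩
    change y ᵥ* (DY X (QuotientGroup.mk' N) 0).map (toRedQ (G ⧸ N)) = x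
    rw [toQuot_eq]
    exact hy
  | succ k =>
    intro (x : Fin (X.n (k + 1)) → RedC (G ⧸ N)) hx
    have hx' : x ᵥ* (DY X (QuotientGroup.mk' N) k).map (toRedQ (G ⧸ N)) = 0 := hx
    rw [toQuot_eq] at hx'
    obtain ⟨y, hy⟩ := h x hx'
    refine ⟨y, ?_⟩
    change y ᵥ* (DY X (QuotientGroup.mk' N) (k + 1)).map (toRedQ (G ⧸ N)) = x
    rw [toQuot_eq]
    exact hy

lemma QW_red {Q : Type} [Group Q] (W : FinRes Q) (k : ℕ) :
    (DY W (MonoidHom.id Q) k).map (toRedQ Q) = (W.d k).map (toRed Q) := by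
  rw [QW_d, ← toRedQ_rat]
  rfl

lemma exAt_QW {Q : Type} [Group Q] (W : FinRes Q) (k : ℕ) (h : Ex (QW W) (toRedQ Q) k) :
    ExAt W (toRed Q) k := by
  cases k with
  | zero =>
    intro x
    obtain ⟨y, hy⟩ := h x trivial
    refine ⟨y, ?_⟩
    rw [← QW_red]
    exact hy
  | succ k =>
    intro x hx
    rw [← QW_red] at hx
    obtain ⟨y, hy⟩ := h x hx
    refine ⟨y, ?_⟩
    rw [← QW_red]
    exact hy

/-- the transfer of the vanishing to the quotient -/
theorem main_ind (X : FinRes G) (W : FinRes (G ⧸ N)) (l : ℕ)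
    (h : ∀ k ≤ l, ExAt X (toQuot N) k)
    (hF : ∀ q, 1 ≤ q → q < l → FiniteDimensional ℚ (X.homology (toRat N) q))
    (hD : ∀ q, 1 ≤ q → q + 1 < l → BoundedFactors (G ⧸ N) (X.homology (toRat N) q)) :
    ∀ k ≤ l, ExAt W (toRed (G ⧸ N)) k := by
  induction l with
  | zero =>
    obtain ⟨F, hF1, -, -, -, hF5⟩ := kill_step (toRedQ (G ⧸ N)) (sh (YC X (QuotientGroup.mk' N)))
      (QW W) 0 (fun k hk => by
        obtain rfl : k = 0 := by omega
        exact ex_empty _ _ _)
      (hom_triv X _ (QuotientGroup.mk'_surjective N)) (rs0_triv W)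
    intro k hk
    refine exAt_QW W k (hF5 k (ex_of_ex F _ 1 (fun i hi => hF1 i (by omega)) k (by omega))
      ((ex_sh _ _ k).2 (ex_YC N X k (h k hk))))
  | succ l ih =>
    have ih' := ih (fun k hk => h k (by omega)) (fun q h1 h2 => hF q h1 (by omega))
      (fun q h1 h2 => hD q h1 (by omega))
    obtain ⟨F, hF1, hF2, -, -, hF5⟩ := kill_step (toRedQ (G ⧸ N)) (sh (YC X (QuotientGroup.mk' N)))
      (QW W) 0 (fun k hk => by
        obtain rfl : k = 0 := by omega
        exact ex_empty _ _ _)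
      (hom_triv X _ (QuotientGroup.mk'_surjective N)) (rs0_triv W)
    have key : ∀ k ≤ l + 1, Ex F (toRedQ (G ⧸ N)) k := by
      refine kill (toRedQ (G ⧸ N)) (l + 1) l 2 F (by omega) (by omega)
        (fun k hk => hF1 k (by omega)) ?_
      intro k hk2 hkl
      obtain ⟨q, rfl⟩ : ∃ q, k = q + 1 + 1 := ⟨k - 2, by omega⟩
      haveI := hF (q + 1) (by omega) (by omega)
      refine ⟨X.homology (toRat N) (q + 1), inferInstance, inferInstance,
        hF2 _ (by omega) _ (hom_high N X q), ?_⟩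
      rcases Nat.eq_zero_or_pos (l + 1 - (q + 1 + 1)) with h0 | h0
      · rw [h0]
        exact tt_zero W (ih' 0 (by omega))
      · exact tt_bounded (hD (q + 1) (by omega) (by omega)) W _ fun k hk => ih' k (by omega)
    intro k hk
    exact exAt_QW W k (hF5 k (key k hk) ((ex_sh _ _ k).2 (ex_YC N X k (h k hk))))

/-- zero in the spectrum passes from the quotient by an amenable normal subgroup to the group -/
theorem transfer (hN : IsAmenable N) (X : FinRes G) (W : FinRes (G ⧸ N)) (i : ℕ)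
    (h : Nontrivial (W.homology (toRed (G ⧸ N)) i))
    (hF : ∀ q, 1 ≤ q → q < i → FiniteDimensional ℚ (X.homology (toRat N) q))
    (hD : ∀ q, 1 ≤ q → q + 1 < i → BoundedFactors (G ⧸ N) (X.homology (toRat N) q)) :
    ∃ j ≤ i, Nontrivial (X.homology (toRed G) j) := by
  by_contra hcon
  push Not at hcon
  have h3 := coeff N hN X i (fun j hj => (exAt_iff X _ j).2 (hcon j hj))
  have h4 := main_ind N X W i h3 hF hD i le_rfl
  exact not_nontrivial_iff_subsingleton.2 ((exAt_iff W _ i).1 h4) h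

end

end Pool.Agent.V5helper81.ZN
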