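import Pool.Agent.V5helper81.ZN.Tw

/-!
Resolutions of finite dimensional modules over a rational group ring.
-/

set_option autoImplicit false
set_option linter.unusedSectionVars false

open scoped Matrix

namespace Pool.Agent.V5helper81.ZN

open Pool.Agent.H919R4.ZS MonoidAlgebra Pool.Agent.TH38.ZT Pool.Agent.R807.ZK

section

variable {G Q : Type} [Group G] [Group Q]

/-- the augmentation `ℚ[Q] → ℚ` -/
noncomputable def augQ (Q : Type) [Group Q] : MonoidAlgebra ℚ Q →+* ℚ :=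
  (MonoidAlgebra.lift ℚ ℚ Q 1).toRingHom

lemma augQ_single (g : Q) (r : ℚ) : augQ Q (single g r) = r := by
  change (MonoidAlgebra.lift ℚ ℚ Q 1) (single g r) = r
  rw [MonoidAlgebra.lift_single]
  simp

lemma augQ_rat (x : MonoidAlgebra ℤ Q) : augQ Q (rat Q x) = (augm Q x : ℚ) := by
  refine induction_linear x ?_ ?_ ?_
  · simp
  · intro a b ha hb
    rw [map_add, map_add, map_add, ha, hb]
    push_cast
    ring
  · intro g c
    rw [rat_single, augQ_single, augm_single]

lemma augQ_smul (r : ℚ) (x : MonoidAlgebra ℚ Q) : augQ Q (r • x) = r * augQ Q x := by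
  change (MonoidAlgebra.lift ℚ ℚ Q 1) (r • x) = r * (MonoidAlgebra.lift ℚ ℚ Q 1) x
  rw [map_smul, smul_eq_mul]

/-- the differentials of the complex `ℚ[Q] ⊗ X` -/
noncomputable def DY (X : FinRes G) (f : G →* Q) (k : ℕ) :
    Matrix (Fin (X.n (k + 1))) (Fin (X.n k)) (MonoidAlgebra ℚ Q) :=
  (X.d k).map ((rat Q).comp (gmap f))

/-- the complex `ℚ[Q] ⊗ X` -/
noncomputable def YC (X : FinRes G) (f : G →* Q) : Cx (MonoidAlgebra ℚ Q) where
  ι k := Fin (X.n k)
  d k := DY X f k
  dd k := by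
    rw [DY, DY, ← Matrix.map_mul, d_mul_d]
    ext
    simp

/-- the augmentation of the complex -/
noncomputable def epsQ (X : FinRes G) (x : Fin (X.n 0) → MonoidAlgebra ℚ Q) : ℚ :=
  ∑ j, augQ Q (x j) * (X.aug j : ℚ)

lemma epsQ_add (X : FinRes G) (x y : Fin (X.n 0) → MonoidAlgebra ℚ Q) :
    epsQ X (x + y) = epsQ X x + epsQ X y := by
  simp only [epsQ, ← Finset.sum_add_distrib]
  exact Finset.sum_congr rfl fun j _ => by rw [Pi.add_apply, map_add, add_mul]

lemma epsQ_smul (X : FinRes G) (r : MonoidAlgebra ℚ Q) (x : Fin (X.n 0) → MonoidAlgebra ℚ Q) :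
    epsQ X (r • x) = augQ Q r * epsQ X x := by
  simp only [epsQ, Finset.mul_sum]
  exact Finset.sum_congr rfl fun j _ => by rw [Pi.smul_apply, smul_eq_mul, map_mul, mul_assoc]

lemma epsQ_bd (X : FinRes G) (f : G →* Q) (y : Fin (X.n 1) → MonoidAlgebra ℚ Q) :
    epsQ X (y ᵥ* DY X f 0) = 0 := by
  have h1 : ∀ j, augQ Q ((y ᵥ* DY X f 0) j) =
      ∑ k, augQ Q (y k) * (augm G (X.d 0 k j) : ℚ) := by
    intro j
    change augQ Q (∑ k, y k * rat Q (gmap f (X.d 0 k j))) = _
    rw [map_sum]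
    refine Finset.sum_congr rfl fun k _ => ?_
    rw [map_mul, augQ_rat, augm_gmap]
  simp only [epsQ, h1, Finset.sum_mul]
  rw [Finset.sum_comm]
  refine Finset.sum_eq_zero fun k _ => ?_
  have h2 := eps_row X k
  have h3 : ∑ j, (augm G (X.d 0 k j) : ℚ) * (X.aug j : ℚ) = 0 := by exact_mod_cast h2
  calc ∑ j, augQ Q (y k) * (augm G (X.d 0 k j) : ℚ) * (X.aug j : ℚ)
      = augQ Q (y k) * ∑ j, (augm G (X.d 0 k j) : ℚ) * (X.aug j : ℚ) := by
        rw [Finset.mul_sum]
        exact Finset.sum_congr rfl fun j _ => by ring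
    _ = 0 := by rw [h3, mul_zero]

lemma rat_vec {a b : ℕ} (z : Fin a → MonoidAlgebra ℤ Q) (M : Matrix (Fin a) (Fin b) (MonoidAlgebra ℤ Q)) :
    (fun j => rat Q ((z ᵥ* M) j)) = (fun k => rat Q (z k)) ᵥ* M.map (rat Q) := by
  funext j
  simp [Matrix.vecMul, dotProduct, map_sum]

lemma clear' {n : ℕ} (y : Fin n → MonoidAlgebra ℚ Q) : ∃ c : ℚ, c ≠ 0 ∧
    ∃ y' : Fin n → MonoidAlgebra ℤ Q, (fun k => rat Q (y' k)) = c • y := by
  obtain ⟨c, hc, y', hy'⟩ := clear y
  refine ⟨(c : ℚ), by exact_mod_cast hc, y', ?_⟩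
  funext k
  rw [hy', Pi.smul_apply, Int.cast_smul_eq_zsmul]

lemma YC_zero (X : FinRes G) (f : G →* Q) (hf : Function.Surjective f)
    (x : Fin (X.n 0) → MonoidAlgebra ℚ Q) :
    epsQ X x = 0 ↔ ∃ y, y ᵥ* DY X f 0 = x := by
  constructor
  · intro h
    obtain ⟨c, hc, x', hx'⟩ := clear' x
    have h1 : ∑ j, augm Q (x' j) * X.aug j = 0 := by
      have h2 : ∑ j, (augm Q (x' j) : ℚ) * (X.aug j : ℚ) = 0 := by
        have h3 : ∀ j, (augm Q (x' j) : ℚ) = c * augQ Q (x j) := by
          intro j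
          rw [← augQ_rat, congrFun hx' j, Pi.smul_apply, augQ_smul]
        simp only [h3, mul_assoc]
        rw [← Finset.mul_sum]
        change c * epsQ X x = 0
        rw [h, mul_zero]
      exact_mod_cast h2
    choose x'' hx'' using fun j => gmap_surj f hf (x' j)
    have h4 : ∑ j, augm G (x'' j) * X.aug j = 0 := by
      rw [← h1]
      refine Finset.sum_congr rfl fun j _ => ?_
      rw [← hx'' j, augm_gmap]
    obtain ⟨y, hy⟩ := (X.exact_zero x'').1 h4
    have h5 : (fun k => gmap f (y k)) ᵥ* (X.d 0).map (gmap f) = x' := by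
      funext j
      rw [← hx'' j, ← hy]
      simp [Matrix.vecMul, dotProduct, map_sum]
    refine ⟨c⁻¹ • fun k => rat Q (gmap f (y k)), ?_⟩
    have h6 : (fun k => rat Q (gmap f (y k))) ᵥ* DY X f 0 = c • x := by
      rw [← hx', ← h5, rat_vec]
      rfl
    rw [Matrix.smul_vecMul, h6, inv_smul_smul₀ hc]
  · rintro ⟨y, rfl⟩
    exact epsQ_bd X f y

lemma exists_one (X : FinRes G) : ∃ n : Fin (X.n 0) → ℚ, ∑ j, n j * (X.aug j : ℚ) = 1 := by
  obtain ⟨x0, hx0⟩ := X.surj
  refine ⟨fun j => (augm G (x0 j) : ℚ), ?_⟩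
  beta_reduce
  exact_mod_cast hx0

end

section

variable {Q : Type} [Group Q]

/-- the complex `ℚ ⊗ W` -/
noncomputable abbrev QW (W : FinRes Q) : Cx (MonoidAlgebra ℚ Q) := YC W (MonoidHom.id Q)

lemma QW_d (W : FinRes Q) (k : ℕ) : DY W (MonoidHom.id Q) k = (W.d k).map (rat Q) := by
  rw [DY, gmap_id]
  rfl

lemma QW_ex (W : FinRes Q) (k : ℕ) : Ex (QW W) (RingHom.id _) (k + 1) := by
  intro (x : Fin (W.n (k + 1)) → MonoidAlgebra ℚ Q) hx
  have hx1 : x ᵥ* DY W (MonoidHom.id Q) k = 0 := hx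
  rw [QW_d] at hx1
  obtain ⟨c, hc, x', hx'⟩ := clear' x
  have h1 : x' ᵥ* W.d k = 0 := by
    funext j
    refine rat_inj ?_
    have h2 := congrFun (rat_vec x' (W.d k)) j
    refine h2.trans ?_
    rw [hx', Matrix.smul_vecMul c x ((W.d k).map (rat Q)), hx1, smul_zero]
    exact (map_zero _).symm
  obtain ⟨y, hy⟩ := (W.exact_succ k x').1 h1
  refine ⟨c⁻¹ • fun k => rat Q (y k), ?_⟩
  change (c⁻¹ • fun k => rat Q (y k)) ᵥ* DY W (MonoidHom.id Q) (k + 1) = x
  rw [QW_d]
  have h6 : (fun k => rat Q (y k)) ᵥ* (W.d (k + 1)).map (rat Q) = c • x := by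
    rw [← hx', ← hy, rat_vec]
  rw [Matrix.smul_vecMul c⁻¹ (fun k => rat Q (y k)) ((W.d (k + 1)).map (rat Q)), h6,
    inv_smul_smul₀ hc]

variable {U : Type} [AddCommGroup U] [Module (MonoidAlgebra ℚ Q) U] [Module ℚ U]
  [IsScalarTower ℚ (MonoidAlgebra ℚ Q) U] {d : ℕ} (b : Module.Basis (Fin d) ℚ U)

/-- the matrices of the action of the inverse elements -/
noncomputable def rp : Q →* Matrix (Fin d) (Fin d) ℚ where
  toFun g := Matrix.of fun a c => b.repr ((single g⁻¹ 1 : MonoidAlgebra ℚ Q) • b a) c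
  map_one' := by
    ext a c
    rw [Matrix.of_apply, inv_one, ← MonoidAlgebra.one_def, one_smul, b.repr_self,
      Finsupp.single_apply, Matrix.one_apply]
  map_mul' g h := by
    ext a c
    rw [Matrix.mul_apply]
    simp only [Matrix.of_apply]
    have h1 : (single (g * h)⁻¹ 1 : MonoidAlgebra ℚ Q) = single h⁻¹ 1 * single g⁻¹ 1 := by
      rw [MonoidAlgebra.single_mul_single, mul_inv_rev, one_mul]
    have h2 : (single g⁻¹ 1 : MonoidAlgebra ℚ Q) • b a =
        ∑ e, b.repr ((single g⁻¹ 1 : MonoidAlgebra ℚ Q) • b a) e • b e := (b.sum_repr _).symm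
    rw [h1, mul_smul, h2, Finset.smul_sum, map_sum, Finsupp.finsetSum_apply]
    refine Finset.sum_congr rfl fun e _ => ?_
    rw [← h2, smul_comm, map_smul, Finsupp.smul_apply, smul_eq_mul]

lemma rp_apply (g : Q) (a c : Fin d) :
    rp b g a c = b.repr ((single g⁻¹ 1 : MonoidAlgebra ℚ Q) • b a) c := rfl

lemma smul_basis (x : MonoidAlgebra ℚ Q) (a : Fin d) :
    x • b a = ∑ c, augQ Q (pm (fun g => rp b g⁻¹ a c) x) • b c := by
  refine MonoidAlgebra.induction_linear x ?_ ?_ ?_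
  · simp
  · intro x y hx hy
    rw [add_smul, hx, hy, ← Finset.sum_add_distrib]
    exact Finset.sum_congr rfl fun c _ => by rw [map_add, map_add, add_smul]
  · intro g r
    have h1 : (single g r : MonoidAlgebra ℚ Q) = r • single g 1 := by
      rw [MonoidAlgebra.smul_single, smul_eq_mul, mul_one]
    rw [h1, smul_assoc, ← b.sum_repr ((single g 1 : MonoidAlgebra ℚ Q) • b a), Finset.smul_sum]
    refine Finset.sum_congr rfl fun c _ => ?_
    rw [← h1, pm_single, augQ_single, rp_apply, inv_inv, mul_smul]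

/-- a resolution of a finite dimensional module -/
theorem rs_of (W : FinRes Q) {S : Type} [Ring S] (φ : MonoidAlgebra ℚ Q →+* S) (t : ℕ)
    (ht : ∀ k ≤ t, Ex (twc (rp b) (QW W)) φ k) : TT U φ t := by
  refine ⟨twc (rp b) (QW W), ⟨fun k hk => absurd hk (Nat.not_lt_zero k), ?_, ?_⟩, ht⟩
  · let ε : (Fin (W.n 0) × Fin d → MonoidAlgebra ℚ Q) →ₗ[MonoidAlgebra ℚ Q] U :=
      Fintype.linearCombination (MonoidAlgebra ℚ Q) (fun p => (W.aug p.1 : ℚ) • b p.2)
    have hε : ∀ x, ε x = ∑ c, epsQ W (Psi (rp b) c x) • b c := by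
      intro x
      change ∑ p, x p • ((W.aug p.1 : ℚ) • b p.2) = _
      rw [Fintype.sum_prod_type]
      have h1 : ∀ k a, x (k, a) • ((W.aug k : ℚ) • b a) =
          ∑ c, ((W.aug k : ℚ) * augQ Q (pm (fun g => rp b g⁻¹ a c) (x (k, a)))) • b c := by
        intro k a
        rw [smul_comm, smul_basis, Finset.smul_sum]
        exact Finset.sum_congr rfl fun c _ => by rw [mul_smul]
      simp only [h1]
      have h2 : ∀ k, ∑ a, ∑ c, ((W.aug k : ℚ) *
          augQ Q (pm (fun g => rp b g⁻¹ a c) (x (k, a)))) • b c =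
          ∑ c, (augQ Q (Psi (rp b) c x k) * (W.aug k : ℚ)) • b c := by
        intro k
        rw [Finset.sum_comm]
        refine Finset.sum_congr rfl fun c _ => ?_
        rw [← Finset.sum_smul]
        congr 1
        rw [← Finset.mul_sum, ← map_sum, mul_comm]
        rfl
      simp only [h2]
      rw [Finset.sum_comm]
      refine Finset.sum_congr rfl fun c _ => ?_
      rw [← Finset.sum_smul]
      rfl
    refine ⟨ε, ?_, ?_⟩
    · intro u
      obtain ⟨n, hn⟩ := exists_one W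
      refine ⟨fun p => single 1 (n p.1 * b.repr u p.2), ?_⟩
      change ∑ p : Fin (W.n 0) × Fin d, (single 1 (n p.1 * b.repr u p.2) : MonoidAlgebra ℚ Q) •
        ((W.aug p.1 : ℚ) • b p.2) = u
      have h1 : ∀ p : Fin (W.n 0) × Fin d,
          (single 1 (n p.1 * b.repr u p.2) : MonoidAlgebra ℚ Q) • ((W.aug p.1 : ℚ) • b p.2) =
          (n p.1 * (W.aug p.1 : ℚ)) • b.repr u p.2 • b p.2 := by
        intro p
        have h2 : (single 1 (n p.1 * b.repr u p.2) : MonoidAlgebra ℚ Q) =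
            (n p.1 * b.repr u p.2) • 1 := by
          rw [MonoidAlgebra.one_def, MonoidAlgebra.smul_single, smul_eq_mul, mul_one]
        rw [h2, smul_assoc, one_smul, smul_smul, smul_smul]
        congr 1
        ring
      simp only [h1]
      rw [Fintype.sum_prod_type]
      simp only [← Finset.smul_sum, b.sum_repr]
      rw [← Finset.sum_smul, hn, one_smul]
    · intro (x : Fin (W.n 0) × Fin d → MonoidAlgebra ℚ Q)
      have h0 : ε x = 0 ↔ ∀ c, epsQ W (Psi (rp b) c x) = 0 := by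
        rw [hε]
        constructor
        · exact fun h => Fintype.linearIndependent_iff.1 b.linearIndependent _ h
        · intro h
          simp [h]
      refine h0.trans ?_
      constructor
      · intro h
        choose y hy using fun c => (YC_zero W (MonoidHom.id Q) Function.surjective_id _).1 (h c)
        refine ⟨∑ c, Phi (rp b) c (y c), ?_⟩
        change (∑ c, Phi (rp b) c (y c)) ᵥ* fl ((DY W (MonoidHom.id Q) 0).map (tw (rp b))) = x
        rw [Phi_sum]
        simp only [hy]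
        exact Phi_Psi (rp b) x
      · rintro ⟨(y : Fin (W.n 1) × Fin d → MonoidAlgebra ℚ Q), hy⟩ c
        have hy' : y ᵥ* fl ((DY W (MonoidHom.id Q) 0).map (tw (rp b))) = x := hy
        rw [← hy', Psi_vec]
        exact epsQ_bd W (MonoidHom.id Q) _
  · intro k hk
    obtain ⟨k, rfl⟩ : ∃ k', k = k' + 1 := ⟨k - 1, by omega⟩
    exact ex_twc (rp b) (QW W) k (QW_ex W k)

end

end Pool.Agent.V5helper81.ZN
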