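import Pool.Agent.V5helper81.ZN.Kill
import Pool.Agent.R807.ZK2

/-!
Twisting a complex over a rational group ring by a finite dimensional representation.
-/

set_option autoImplicit false
set_option linter.unusedSectionVars false

open scoped Matrix

namespace Pool.Agent.V5helper81.ZN

open MonoidAlgebra (single liftNC)

/-! ### block matrices -/

section

variable {A : Type} [Ring A] {d : ℕ}

/-- a matrix of square matrices as a matrix -/
def fl {m n : Type} (M : Matrix m n (Matrix (Fin d) (Fin d) A)) :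
    Matrix (m × Fin d) (n × Fin d) A := Matrix.of fun p q => M p.1 q.1 p.2 q.2

lemma fl_mul {l m n : Type} [Fintype m] (M : Matrix l m (Matrix (Fin d) (Fin d) A))
    (N : Matrix m n (Matrix (Fin d) (Fin d) A)) : fl (M * N) = fl M * fl N := by
  ext p q
  change (M * N) p.1 q.1 p.2 q.2 = ∑ r : m × Fin d, M p.1 r.1 p.2 r.2 * N r.1 q.1 r.2 q.2
  rw [Fintype.sum_prod_type, Matrix.mul_apply, Matrix.sum_apply]
  exact Finset.sum_congr rfl fun r _ => Matrix.mul_apply

lemma fl_zero {m n : Type} : fl (0 : Matrix m n (Matrix (Fin d) (Fin d) A)) = 0 := rfl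

lemma fl_vec {m n : Type} [Fintype m] (v : m → Matrix (Fin d) (Fin d) A)
    (M : Matrix m n (Matrix (Fin d) (Fin d) A)) (r : Fin d) :
    (fun p : m × Fin d => v p.1 r p.2) ᵥ* fl M = fun q => (v ᵥ* M) q.1 r q.2 := by
  funext q
  change ∑ p : m × Fin d, v p.1 r p.2 * M p.1 q.1 p.2 q.2 = (∑ k, v k * M k q.1) r q.2
  rw [Fintype.sum_prod_type, Matrix.sum_apply]
  refine Finset.sum_congr rfl fun k _ => ?_
  rw [Matrix.mul_apply]

/-- exactness for the rows follows from the exactness for the matrices -/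
lemma morita {l m n : Type} [Fintype l] [Fintype m]
    (D' : Matrix l m (Matrix (Fin d) (Fin d) A)) (D : Matrix m n (Matrix (Fin d) (Fin d) A))
    (h : ∀ v : m → Matrix (Fin d) (Fin d) A, v ᵥ* D = 0 → ∃ w, w ᵥ* D' = v)
    (x : m × Fin d → A) (hx : x ᵥ* fl D = 0) : ∃ y, y ᵥ* fl D' = x := by
  rcases isEmpty_or_nonempty (Fin d) with hd | ⟨⟨r⟩⟩
  · exact ⟨0, funext fun p => isEmptyElim p.2⟩
  · obtain ⟨w, hw⟩ := h (fun k => Matrix.of fun _ a => x (k, a)) (by
      funext j
      ext a b
      have h1 := congrFun (fl_vec (fun k => (Matrix.of fun _ a => x (k, a) :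
        Matrix (Fin d) (Fin d) A)) D a) (j, b)
      exact h1.symm.trans (congrFun hx (j, b)))
    refine ⟨fun p => w p.1 r p.2, ?_⟩
    rw [fl_vec, hw]
    rfl

lemma morita0 {l m : Type} [Fintype l] (D' : Matrix l m (Matrix (Fin d) (Fin d) A))
    (h : ∀ v : m → Matrix (Fin d) (Fin d) A, ∃ w, w ᵥ* D' = v)
    (x : m × Fin d → A) : ∃ y, y ᵥ* fl D' = x := by
  rcases isEmpty_or_nonempty (Fin d) with hd | ⟨⟨r⟩⟩
  · exact ⟨0, funext fun p => isEmptyElim p.2⟩
  · obtain ⟨w, hw⟩ := h (fun k => Matrix.of fun _ a => x (k, a))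
    refine ⟨fun p => w p.1 r p.2, ?_⟩
    rw [fl_vec, hw]
    rfl

end

/-! ### multiplication of the coefficients by a function -/

section

variable {Q : Type} [Group Q]

/-- multiplication of the coefficients by a function -/
noncomputable def pm (w : Q → ℚ) : MonoidAlgebra ℚ Q →+ MonoidAlgebra ℚ Q :=
  liftNC ((MonoidAlgebra.singleOneRingHom : ℚ →+* MonoidAlgebra ℚ Q) : ℚ →+ MonoidAlgebra ℚ Q)
    (fun q => single q (w q))

lemma pm_single (w : Q → ℚ) (g : Q) (r : ℚ) : pm w (single g r) = single g (r * w g) := by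
  rw [pm, MonoidAlgebra.liftNC_single]
  change single 1 r * single g (w g) = _
  rw [MonoidAlgebra.single_mul_single, one_mul]

lemma pm_comp (w w' : Q → ℚ) (x : MonoidAlgebra ℚ Q) :
    pm w (pm w' x) = pm (fun g => w' g * w g) x := by
  refine MonoidAlgebra.induction_linear x ?_ ?_ ?_
  · simp only [map_zero]
  · intro a b ha hb
    simp only [map_add, ha, hb]
  · intro g r
    rw [pm_single, pm_single, pm_single, mul_assoc]

lemma pm_one (x : MonoidAlgebra ℚ Q) : pm (fun _ => 1) x = x := by
  refine MonoidAlgebra.induction_linear x ?_ ?_ ?_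
  · simp only [map_zero]
  · intro a b ha hb
    simp only [map_add, ha, hb]
  · intro g r
    rw [pm_single, mul_one]

lemma pm_zero (x : MonoidAlgebra ℚ Q) : pm (fun _ => 0) x = 0 := by
  refine MonoidAlgebra.induction_linear x ?_ ?_ ?_
  · simp only [map_zero]
  · intro a b ha hb
    simp only [map_add, ha, hb, add_zero]
  · intro g r
    rw [pm_single, mul_zero, MonoidAlgebra.single_zero]

lemma single_sum' {α : Type} (s : Finset α) (g : Q) (f : α → ℚ) :
    (single g (∑ i ∈ s, f i) : MonoidAlgebra ℚ Q) = ∑ i ∈ s, single g (f i) :=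
  map_sum (MonoidAlgebra.singleAddHom g) f s

lemma pm_sum {α : Type} (s : Finset α) (w : α → Q → ℚ) (x : MonoidAlgebra ℚ Q) :
    pm (fun g => ∑ i ∈ s, w i g) x = ∑ i ∈ s, pm (w i) x := by
  refine MonoidAlgebra.induction_linear x ?_ ?_ ?_
  · simp only [map_zero, Finset.sum_const_zero]
  · intro a b ha hb
    simp only [map_add, ha, hb, Finset.sum_add_distrib]
  · intro g r
    rw [pm_single, Finset.mul_sum, single_sum']
    exact Finset.sum_congr rfl fun i _ => (pm_single _ _ _).symm

variable {d : ℕ} (s : Q →* Matrix (Fin d) (Fin d) ℚ)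

/-- the homomorphism `g ↦ s(g) g` -/
noncomputable def tw : MonoidAlgebra ℚ Q →+* Matrix (Fin d) (Fin d) (MonoidAlgebra ℚ Q) where
  toFun x := Matrix.of fun a c => pm (fun g => s g a c) x
  map_zero' := by
    ext1 a c
    change pm (fun g => s g a c) 0 = 0
    exact map_zero _
  map_add' x y := by
    ext1 a c
    change pm (fun g => s g a c) (x + y) = pm (fun g => s g a c) x + pm (fun g => s g a c) y
    exact map_add _ _ _
  map_one' := by
    ext1 a c
    change pm _ (single 1 1) = _
    rw [pm_single, map_one, one_mul, Matrix.one_apply, Matrix.one_apply]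
    split_ifs
    · rfl
    · exact MonoidAlgebra.single_zero _
  map_mul' x y := by
    refine MonoidAlgebra.induction_linear x ?_ ?_ ?_
    · ext1 a c
      simp [Matrix.mul_apply]
    · intro x x' hx hx'
      ext1 a c
      have h1 := congrFun (congrFun hx a) c
      have h2 := congrFun (congrFun hx' a) c
      simp only [Matrix.of_apply, Matrix.mul_apply] at h1 h2 ⊢
      rw [add_mul, map_add, h1, h2, ← Finset.sum_add_distrib]
      exact Finset.sum_congr rfl fun i _ => by rw [map_add, add_mul]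
    · intro g r
      refine MonoidAlgebra.induction_linear y ?_ ?_ ?_
      · ext1 a c
        simp [Matrix.mul_apply]
      · intro x x' hx hx'
        ext1 a c
        have h1 := congrFun (congrFun hx a) c
        have h2 := congrFun (congrFun hx' a) c
        simp only [Matrix.of_apply, Matrix.mul_apply] at h1 h2 ⊢
        rw [mul_add, map_add, h1, h2, ← Finset.sum_add_distrib]
        exact Finset.sum_congr rfl fun i _ => by rw [map_add, mul_add]
      · intro h r'
        ext1 a c
        simp only [Matrix.of_apply, Matrix.mul_apply]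
        rw [MonoidAlgebra.single_mul_single, pm_single, map_mul, Matrix.mul_apply, Finset.mul_sum,
          single_sum']
        refine Finset.sum_congr rfl fun i _ => ?_
        rw [pm_single, pm_single, MonoidAlgebra.single_mul_single]
        congr 1
        ring

lemma tw_apply (x : MonoidAlgebra ℚ Q) (a c : Fin d) : tw s x a c = pm (fun g => s g a c) x := rfl

/-- the twisted complex -/
noncomputable def twc (C : Cx (MonoidAlgebra ℚ Q)) : Cx (MonoidAlgebra ℚ Q) where
  ι k := C.ι k × Fin d
  d k := fl ((C.d k).map (tw s))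
  dd k := by
    rw [← fl_mul, ← Matrix.map_mul, C.dd]
    ext
    simp [fl]

/-- `x ↦ x ⊗ b_a` -/
noncomputable def Phi {ι : Type} (a : Fin d) (x : ι → MonoidAlgebra ℚ Q) :
    ι × Fin d → MonoidAlgebra ℚ Q := fun p => tw s (x p.1) a p.2

/-- the coordinates -/
noncomputable def Psi {ι : Type} (c : Fin d) (p : ι × Fin d → MonoidAlgebra ℚ Q) :
    ι → MonoidAlgebra ℚ Q := fun k => ∑ a, pm (fun g => s g⁻¹ a c) (p (k, a))

lemma Phi_vec {l m : Type} [Fintype l] (a : Fin d) (x : l → MonoidAlgebra ℚ Q)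
    (M : Matrix l m (MonoidAlgebra ℚ Q)) :
    Phi s a (x ᵥ* M) = Phi s a x ᵥ* fl (M.map (tw s)) := by
  have h := fl_vec (fun k => tw s (x k)) (M.map (tw s)) a
  refine Eq.trans ?_ h.symm
  funext q
  change tw s ((x ᵥ* M) q.1) a q.2 = _
  congr 2
  simp only [Matrix.vecMul, dotProduct, map_sum, map_mul, Matrix.map_apply]

lemma Psi_key (x y : MonoidAlgebra ℚ Q) (a c : Fin d) :
    ∑ b, pm (fun g => s g⁻¹ b c) (x * tw s y a b) = pm (fun g => s g⁻¹ a c) x * y := by
  refine MonoidAlgebra.induction_linear x ?_ ?_ ?_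
  · simp
  · intro x x' hx hx'
    rw [map_add, add_mul, ← hx, ← hx', ← Finset.sum_add_distrib]
    exact Finset.sum_congr rfl fun b _ => by rw [add_mul, map_add]
  · intro g r
    refine MonoidAlgebra.induction_linear y ?_ ?_ ?_
    · simp
    · intro x x' hx hx'
      rw [mul_add, ← hx, ← hx', ← Finset.sum_add_distrib]
      exact Finset.sum_congr rfl fun b _ => by rw [map_add, Matrix.add_apply, mul_add, map_add]
    · intro h r'
      have h1 : ∀ b, pm (fun g => s g⁻¹ b c) (single g r * tw s (single h r') a b) =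
          single (g * h) (r * r' * (s h a b * s (g * h)⁻¹ b c)) := by
        intro b
        rw [tw_apply, pm_single, MonoidAlgebra.single_mul_single, pm_single]
        congr 1
        ring
      rw [Finset.sum_congr rfl fun b _ => h1 b, ← single_sum', ← Finset.mul_sum,
        ← Matrix.mul_apply, ← map_mul, pm_single, MonoidAlgebra.single_mul_single]
      have h2 : h * (g * h)⁻¹ = g⁻¹ := by group
      rw [h2]
      congr 1
      ring

lemma Psi_vec {l m : Type} [Fintype l] (c : Fin d) (p : l × Fin d → MonoidAlgebra ℚ Q)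
    (M : Matrix l m (MonoidAlgebra ℚ Q)) :
    Psi s c (p ᵥ* fl (M.map (tw s))) = Psi s c p ᵥ* M := by
  funext j
  change ∑ b, pm (fun g => s g⁻¹ b c) (∑ q : l × Fin d, p q * tw s (M q.1 j) q.2 b) =
    ∑ k, (∑ a, pm (fun g => s g⁻¹ a c) (p (k, a))) * M k j
  simp only [map_sum]
  rw [Finset.sum_comm, Fintype.sum_prod_type]
  refine Finset.sum_congr rfl fun k _ => ?_
  rw [Finset.sum_mul]
  exact Finset.sum_congr rfl fun a _ => Psi_key s _ _ _ _

lemma Phi_Psi {ι : Type} (p : ι × Fin d → MonoidAlgebra ℚ Q) :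
    ∑ a, Phi s a (Psi s a p) = p := by
  funext q
  obtain ⟨k, c⟩ := q
  rw [Finset.sum_apply]
  change ∑ a, pm (fun g => s g a c) (∑ e, pm (fun g => s g⁻¹ e a) (p (k, e))) = p (k, c)
  simp only [map_sum, pm_comp]
  rw [Finset.sum_comm]
  have h1 : ∀ e, ∑ a, pm (fun g => s g⁻¹ e a * s g a c) (p (k, e)) =
      if e = c then p (k, e) else 0 := by
    intro e
    rw [← pm_sum]
    have h2 : (fun g => ∑ a, s g⁻¹ e a * s g a c) = fun _ => if e = c then (1 : ℚ) else 0 := by
      funext g
      rw [← Matrix.mul_apply, ← map_mul, inv_mul_cancel, map_one, Matrix.one_apply]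
    rw [h2]
    split_ifs
    · exact pm_one _
    · exact pm_zero _
  rw [Finset.sum_congr rfl fun e _ => h1 e, Finset.sum_ite_eq' Finset.univ c]
  simp

lemma Phi_sum {ι : Type} (x : Fin d → ι → MonoidAlgebra ℚ Q) {κ : Type} [Fintype ι]
    (M : Matrix ι κ (MonoidAlgebra ℚ Q)) :
    (∑ a, Phi s a (x a)) ᵥ* fl (M.map (tw s)) = ∑ a, Phi s a (x a ᵥ* M) := by
  rw [Finset.sum_congr rfl fun a _ => Phi_vec s a (x a) M]
  funext j
  simp only [Matrix.vecMul, dotProduct, Finset.sum_apply, Finset.sum_mul]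
  exact Finset.sum_comm

/-- the twisted complex is exact where the complex is -/
theorem ex_twc (C : Cx (MonoidAlgebra ℚ Q)) (k : ℕ)
    (h : Ex C (RingHom.id _) (k + 1)) : Ex (twc s C) (RingHom.id _) (k + 1) := by
  intro (p : C.ι (k + 1) × Fin d → MonoidAlgebra ℚ Q) hp
  have hp' : p ᵥ* fl ((C.d k).map (tw s)) = 0 := hp
  have h1 : ∀ c, Psi s c p ᵥ* C.d k = 0 := by
    intro c
    rw [← Psi_vec, hp']
    funext j
    simp [Psi]
  choose y hy using fun c => h (Psi s c p) (h1 c)
  refine ⟨∑ c, Phi s c (y c), ?_⟩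
  change (∑ c, Phi s c (y c)) ᵥ* fl ((C.d (k + 1)).map (tw s)) = p
  rw [Phi_sum]
  have hy' : ∀ c, y c ᵥ* C.d (k + 1) = Psi s c p := hy
  simp only [hy']
  exact Phi_Psi s p

end

end Pool.Agent.V5helper81.ZN
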