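import Pool.Agent.V5helper81.ZN.Gap

/-!
Vanishing of the torsion products of C*_r(Q) with finite dimensional modules.
-/

set_option autoImplicit false
set_option linter.unusedSectionVars false

open scoped Matrix ENNReal

namespace Pool.Agent.V5helper81.ZN

open Pool.Agent.H919R4.ZS MonoidAlgebra Pool.Agent.TH38.ZT Pool.Agent.R807.ZK

section

variable {Q : Type} [Group Q]

lemma vR_toRed (g : Q) : vR Q (toRed Q (single g 1)) = lreg g := by
  have h := L_single (G := Q) g 1
  rw [one_smul] at h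
  exact h

/-! ### `C*_r(Q)` has no finite dimensional representations, if `H_0` vanishes -/

/-- the action of a matrix of matrices on the unit matrix -/
def act {D : ℕ} (T : Matrix (Fin D) (Fin D) (Matrix (Fin D) (Fin D) ℂ)) (a c : Fin D) : ℂ :=
  ∑ b, T a b c b

lemma act_add {D : ℕ} (T T' : Matrix (Fin D) (Fin D) (Matrix (Fin D) (Fin D) ℂ)) (a c : Fin D) :
    act (T + T') a c = act T a c + act T' a c := by
  simp only [act, Matrix.add_apply, Finset.sum_add_distrib]

lemma act_sum {D : ℕ} {α : Type} (s : Finset α)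
    (T : α → Matrix (Fin D) (Fin D) (Matrix (Fin D) (Fin D) ℂ)) (a c : Fin D) :
    act (∑ i ∈ s, T i) a c = ∑ i ∈ s, act (T i) a c := by
  simp only [act, Matrix.sum_apply]
  exact Finset.sum_comm

lemma act_mul {D : ℕ} (T T' : Matrix (Fin D) (Fin D) (Matrix (Fin D) (Fin D) ℂ)) (k : ℂ)
    (h : ∀ e f, act T' e f = if e = f then k else 0) (a c : Fin D) :
    act (T * T') a c = k * act T a c := by
  have h1 : act (T * T') a c = ∑ e, ∑ f, T a e c f * act T' e f := by
    simp only [act, Matrix.mul_apply, Matrix.sum_apply, Finset.mul_sum]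
    rw [Finset.sum_comm]
    refine Finset.sum_congr rfl fun e _ => ?_
    rw [Finset.sum_comm]
  rw [h1]
  simp only [h, mul_ite, mul_zero, Finset.sum_ite_eq, Finset.mem_univ, if_true]
  rw [act, Finset.mul_sum]
  exact Finset.sum_congr rfl fun e _ => mul_comm _ _

theorem no_rep (W : FinRes Q) (hW : ExAt W (toRed Q) 0) {D : ℕ} (hD : 0 < D)
    (σ : RedC Q →+* Matrix (Fin D) (Fin D) ℂ) (C : ℝ)
    (hσ : ∀ g i j, ‖σ (toRed Q (single g 1)) i j‖ ≤ C)
    (hlin : ∀ (c : ℂ) (x y : RedC Q), vR Q y = c • vR Q x → σ y = c • σ x) : False := by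
  have hmul : ∀ g h : Q, toRed Q (single (g * h) 1) =
      toRed Q (single g 1) * toRed Q (single h 1) := by
    intro g h
    rw [← map_mul, MonoidAlgebra.single_mul_single, one_mul]
  have hone : toRed Q (single 1 1) = 1 := by
    rw [← MonoidAlgebra.one_def, map_one]
  let s : Q →* Matrix (Fin D) (Fin D) ℂ :=
    { toFun := fun g => (σ (toRed Q (single g⁻¹ 1)))ᵀ
      map_one' := by rw [inv_one, hone, map_one, Matrix.transpose_one]
      map_mul' := by
        intro g h
        rw [mul_inv_rev, hmul, map_mul, Matrix.transpose_mul] }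
  have hs : BdR s := fun a b => ⟨C, fun g => hσ g⁻¹ b a⟩
  let τ : RedC Q →+* Matrix (Fin D) (Fin D) (Matrix (Fin D) (Fin D) ℂ) :=
    (RingHom.mapMatrix σ).comp (ThR s hs)
  have hτ : ∀ g a b, τ (toRed Q (single g 1)) a b = s g a b • σ (toRed Q (single g 1)) := by
    intro g a b
    change σ (ThR s hs (toRed Q (single g 1)) a b) = _
    refine hlin _ _ _ ?_
    have h1 : vR Q (ThR s hs (toRed Q (single g 1)) a b) =
        Th s hs (vR Q (toRed Q (single g 1))) a b := rfl
    rw [h1, vR_toRed, Th_lreg]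
  have hg : ∀ g e f, act (τ (toRed Q (single g 1))) e f = if e = f then 1 else 0 := by
    intro g e f
    simp only [act, hτ, Matrix.smul_apply]
    change ∑ b, σ (toRed Q (single g⁻¹ 1)) b e • σ (toRed Q (single g 1)) f b = _
    simp only [smul_eq_mul]
    rw [Finset.sum_congr rfl fun b _ => mul_comm _ _, ← Matrix.mul_apply, ← map_mul, ← hmul,
      mul_inv_cancel, hone, map_one, Matrix.one_apply]
    by_cases h : e = f
    · rw [if_pos h, if_pos h.symm]
    · rw [if_neg h, if_neg (Ne.symm h)]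
  have hr : ∀ (r : MonoidAlgebra ℤ Q) e f, act (τ (toRed Q r)) e f =
      if e = f then (augm Q r : ℂ) else 0 := by
    intro r e f
    refine MonoidAlgebra.induction_linear r ?_ ?_ ?_
    · rw [map_zero, map_zero, map_zero]
      simp [act]
    · intro x y hx hy
      rw [map_add, map_add, map_add, act_add, hx, hy]
      split_ifs
      · push_cast; ring
      · ring
    · intro g c
      have h1 : (single g c : MonoidAlgebra ℤ Q) = c • single g 1 := by
        rw [MonoidAlgebra.smul_single, smul_eq_mul, mul_one]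
      have h2 : act (c • τ (toRed Q (single g 1))) e f =
          (c : ℂ) * act (τ (toRed Q (single g 1))) e f := by
        simp only [act, Matrix.smul_apply, Finset.mul_sum, zsmul_eq_mul]
      rw [h1, map_zsmul, map_zsmul, map_zsmul, h2, hg, augm_single]
      split_ifs
      · simp
      · simp
  obtain ⟨x0, hx0⟩ := W.surj
  have hex : ExAt W (τ.comp (toRed Q)) 0 := ex_comp W (toRed Q) τ 0 (fun i hi => by
    obtain rfl : i = 0 := by omega
    exact hW) 0 le_rfl
  obtain ⟨y, hy⟩ := hex fun l => ((augm Q (x0 l) : ℤ) : Matrix (Fin D) (Fin D)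
    (Matrix (Fin D) (Fin D) ℂ))
  have hact : ∀ l a c, act ((augm Q (x0 l) : ℤ) : Matrix (Fin D) (Fin D)
      (Matrix (Fin D) (Fin D) ℂ)) a c = ∑ k, (augm Q (W.d 0 k l) : ℂ) * act (y k) a c := by
    intro l a c
    rw [← congrFun hy l]
    change act (∑ k, y k * τ (toRed Q (W.d 0 k l))) a c = _
    rw [act_sum]
    exact Finset.sum_congr rfl fun k _ => act_mul _ _ _ (hr _) a c
  have hint : ∀ (n : ℤ) a c, act ((n : ℤ) : Matrix (Fin D) (Fin D)
      (Matrix (Fin D) (Fin D) ℂ)) a c = if a = c then (n : ℂ) else 0 := by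
    intro n a c
    have h1 : ((n : ℤ) : Matrix (Fin D) (Fin D) (Matrix (Fin D) (Fin D) ℂ)) =
        τ (toRed Q (n : MonoidAlgebra ℤ Q)) := by
      rw [map_intCast, map_intCast]
    rw [h1, hr, map_intCast]
    simp
  let a : Fin D := ⟨0, hD⟩
  have h1 : ∑ l, (W.aug l : ℂ) * act ((augm Q (x0 l) : ℤ) : Matrix (Fin D) (Fin D)
      (Matrix (Fin D) (Fin D) ℂ)) a a = 1 := by
    simp only [hint, if_true]
    rw [Finset.sum_congr rfl fun l _ => mul_comm _ _]
    exact_mod_cast hx0
  have h2 : ∑ l, (W.aug l : ℂ) * act ((augm Q (x0 l) : ℤ) : Matrix (Fin D) (Fin D)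
      (Matrix (Fin D) (Fin D) ℂ)) a a = 0 := by
    simp only [hact, Finset.mul_sum]
    rw [Finset.sum_comm]
    refine Finset.sum_eq_zero fun k _ => ?_
    have h3 : ∑ l, (augm Q (W.d 0 k l) : ℂ) * (W.aug l : ℂ) = 0 := by
      exact_mod_cast eps_row W k
    calc ∑ l, (W.aug l : ℂ) * ((augm Q (W.d 0 k l) : ℂ) * act (y k) a a)
        = (∑ l, (augm Q (W.d 0 k l) : ℂ) * (W.aug l : ℂ)) * act (y k) a a := by
          rw [Finset.sum_mul]
          exact Finset.sum_congr rfl fun l _ => by ring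
      _ = 0 := by rw [h3, zero_mul]
  rw [h1] at h2
  exact one_ne_zero h2

/-- arbitrary finite dimensional representations in degree zero -/
theorem ex_zero {d : ℕ} (s : Q →* Matrix (Fin d) (Fin d) ℚ) (W : FinRes Q)
    (hW : ExAt W (toRed Q) 0) : Ex (twc s (QW W)) (toRedQ Q) 0 := by
  by_contra h
  obtain ⟨D, σ, C, hD, hσ, hlin⟩ := exists_rep_redC s W h
  exact no_rep W hW hD σ C hσ hlin

/-! ### bounded representations -/

variable {d : ℕ} (s : Q →* Matrix (Fin d) (Fin d) ℚ)

/-- the complexification -/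
noncomputable def cpx : Q →* Matrix (Fin d) (Fin d) ℂ :=
  (RingHom.mapMatrix (algebraMap ℚ ℂ)).toMonoidHom.comp s

/-- the twisted homomorphism `ℤ[Q] → M_d(C*_r(Q))` -/
noncomputable def psi : MonoidAlgebra ℤ Q →+* Matrix (Fin d) (Fin d) (RedC Q) :=
  (RingHom.mapMatrix (toRedQ Q)).comp ((tw s).comp (rat Q))

lemma psi_eq (hs : BdR (cpx s)) : (ThR (cpx s) hs).comp (toRed Q) = psi s := by
  refine hom_ext_single fun g => ?_
  ext1 a b
  refine Subtype.ext ?_
  change Th (cpx s) hs (vR Q (toRed Q (single g 1))) a b = opQ Q (tw s (rat Q (single g 1)) a b)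
  rw [vR_toRed, Th_lreg, rat_single, tw_apply, pm_single, opQ_single]
  change ((s g a b : ℚ) : ℂ) • _ = _
  congr 1
  push_cast
  ring

lemma twc_d (W : FinRes Q) (k : ℕ) :
    (fl ((DY W (MonoidHom.id Q) k).map (tw s))).map (toRedQ Q) = fl ((W.d k).map (psi s)) := by
  rw [QW_d]
  rfl

lemma ex_of_psi (W : FinRes Q) (k : ℕ) (h : ExAt W (psi s) k) :
    Ex (twc s (QW W)) (toRedQ Q) k := by
  cases k with
  | zero =>
    intro (x : Fin (W.n 0) × Fin d → RedC Q) _
    obtain ⟨y, hy⟩ := morita0 ((W.d 0).map (psi s)) h x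
    refine ⟨y, ?_⟩
    change y ᵥ* (fl ((DY W (MonoidHom.id Q) 0).map (tw s))).map (toRedQ Q) = x
    rw [twc_d]
    exact hy
  | succ k =>
    intro (x : Fin (W.n (k + 1)) × Fin d → RedC Q) hx
    have hx' : x ᵥ* (fl ((DY W (MonoidHom.id Q) k).map (tw s))).map (toRedQ Q) = 0 := hx
    rw [twc_d] at hx'
    obtain ⟨y, hy⟩ := morita ((W.d (k + 1)).map (psi s)) ((W.d k).map (psi s)) h x hx'
    refine ⟨y, ?_⟩
    change y ᵥ* (fl ((DY W (MonoidHom.id Q) (k + 1)).map (tw s))).map (toRedQ Q) = x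
    rw [twc_d]
    exact hy

theorem ex_bounded (hs : BdR (cpx s)) (W : FinRes Q) (p : ℕ)
    (hW : ∀ k ≤ p, ExAt W (toRed Q) k) : ∀ k ≤ p, Ex (twc s (QW W)) (toRedQ Q) k := by
  have h := ex_comp W (toRed Q) (ThR (cpx s) hs) p hW
  rw [psi_eq] at h
  exact fun k hk => ex_of_psi s W k (h k hk)

/-! ### block triangular representations -/

section Level

variable {A : Type} [Ring A]

/-- the part of level `t` -/
def part {α : Type} (lev : Fin d → ℕ) (t : ℕ) (x : α × Fin d → A) : α × Fin d → A :=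
  fun p => if lev p.2 = t then x p else 0

variable {α β : Type} [Fintype α]

lemma part_vec (lev : Fin d → ℕ) (t : ℕ) (D D0 : Matrix (α × Fin d) (β × Fin d) A)
    (h1 : ∀ p q, lev p.2 < lev q.2 → D p q = 0) (h2 : ∀ p q, lev p.2 = lev q.2 → D0 p q = D p q)
    (h3 : ∀ p q, lev p.2 ≠ lev q.2 → D0 p q = 0) (x : α × Fin d → A)
    (hx : ∀ p, t < lev p.2 → x p = 0) : part lev t x ᵥ* D0 = part lev t (x ᵥ* D) := by
  funext q
  simp only [part, Matrix.vecMul, dotProduct]
  by_cases hq : lev q.2 = t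
  · rw [if_pos hq]
    refine Finset.sum_congr rfl fun p _ => ?_
    by_cases hp : lev p.2 = t
    · rw [if_pos hp, h2 p q (hp.trans hq.symm)]
    · rw [if_neg hp, zero_mul]
      rcases lt_or_gt_of_ne hp with h | h
      · rw [h1 p q (by omega), mul_zero]
      · rw [hx p h, zero_mul]
  · rw [if_neg hq]
    refine Finset.sum_eq_zero fun p _ => ?_
    by_cases hp : lev p.2 = t
    · rw [h3 p q (by omega), mul_zero]
    · rw [if_neg hp, zero_mul]

lemma part_vec0 (lev : Fin d → ℕ) (t : ℕ) (D0 : Matrix (α × Fin d) (β × Fin d) A)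
    (h3 : ∀ p q, lev p.2 ≠ lev q.2 → D0 p q = 0) (x : α × Fin d → A) :
    part lev t x ᵥ* D0 = part lev t (x ᵥ* D0) := by
  funext q
  simp only [part, Matrix.vecMul, dotProduct]
  by_cases hq : lev q.2 = t
  · rw [if_pos hq]
    refine Finset.sum_congr rfl fun p _ => ?_
    by_cases hp : lev p.2 = t
    · rw [if_pos hp]
    · rw [if_neg hp, zero_mul, h3 p q (by omega), mul_zero]
  · rw [if_neg hq]
    refine Finset.sum_eq_zero fun p _ => ?_
    by_cases hp : lev p.2 = t
    · rw [h3 p q (by omega), mul_zero]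
    · rw [if_neg hp, zero_mul]

lemma vec_zero (lev : Fin d → ℕ) (t : ℕ) (D : Matrix (α × Fin d) (β × Fin d) A)
    (h1 : ∀ p q, lev p.2 < lev q.2 → D p q = 0) (x : α × Fin d → A)
    (hx : ∀ p, t < lev p.2 → x p = 0) (q : β × Fin d) (hq : t < lev q.2) : (x ᵥ* D) q = 0 := by
  simp only [Matrix.vecMul, dotProduct]
  refine Finset.sum_eq_zero fun p _ => ?_
  rcases Nat.lt_or_ge t (lev p.2) with h | h
  · rw [hx p h, zero_mul]
  · rw [h1 p q (by omega), mul_zero]

end Level

variable {A : Type} [Ring A]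

theorem ex_level (C : Cx (MonoidAlgebra ℚ Q)) (φ : MonoidAlgebra ℚ Q →+* A)
    (s0 : Q →* Matrix (Fin d) (Fin d) ℚ) (lev : Fin d → ℕ)
    (h1 : ∀ g a b, lev a < lev b → s g a b = 0) (h2 : ∀ g a b, lev a = lev b → s0 g a b = s g a b)
    (h3 : ∀ g a b, lev a ≠ lev b → s0 g a b = 0) (k : ℕ) (h : Ex (twc s0 C) φ k) :
    Ex (twc s C) φ k := by
  let E : ∀ i, Matrix (C.ι (i + 1) × Fin d) (C.ι i × Fin d) A :=
    fun i => (fl ((C.d i).map (tw s))).map φ
  let E0 : ∀ i, Matrix (C.ι (i + 1) × Fin d) (C.ι i × Fin d) A :=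
    fun i => (fl ((C.d i).map (tw s0))).map φ
  have e1 : ∀ i p q, lev p.2 < lev q.2 → E i p q = 0 := by
    intro i p q hpq
    change φ (pm (fun g => s g p.2 q.2) (C.d i p.1 q.1)) = 0
    have : (fun g => s g p.2 q.2) = fun _ => 0 := funext fun g => h1 g _ _ hpq
    rw [this, pm_zero, map_zero]
  have e2 : ∀ i p q, lev p.2 = lev q.2 → E0 i p q = E i p q := by
    intro i p q hpq
    change φ (pm (fun g => s0 g p.2 q.2) (C.d i p.1 q.1)) =
      φ (pm (fun g => s g p.2 q.2) (C.d i p.1 q.1))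
    have : (fun g => s0 g p.2 q.2) = fun g => s g p.2 q.2 := funext fun g => h2 g _ _ hpq
    rw [this]
  have e3 : ∀ i p q, lev p.2 ≠ lev q.2 → E0 i p q = 0 := by
    intro i p q hpq
    change φ (pm (fun g => s0 g p.2 q.2) (C.d i p.1 q.1)) = 0
    have : (fun g => s0 g p.2 q.2) = fun _ => 0 := funext fun g => h3 g _ _ hpq
    rw [this, pm_zero, map_zero]
  have h' : ∀ x : C.ι k × Fin d → A, (show (twc s0 C).ι k → A from x) ∈ cyc (twc s0 C) φ k →
      ∃ y : C.ι (k + 1) × Fin d → A, y ᵥ* E0 k = x := h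
  have hp : ∀ (t : ℕ) (x : C.ι k × Fin d → A), (∀ p, t < lev p.2 → x p = 0) →
      (show (twc s C).ι k → A from x) ∈ cyc (twc s C) φ k →
      (show (twc s0 C).ι k → A from part lev t x) ∈ cyc (twc s0 C) φ k := by
    intro t x hx hc
    cases k with
    | zero => trivial
    | succ k =>
      have hc' : x ᵥ* E k = 0 := hc
      change part lev t x ᵥ* E0 k = 0
      rw [part_vec lev t (E k) (E0 k) (e1 k) (e2 k) (e3 k) x hx, hc']
      funext q
      simp [part]
  have key : ∀ (t : ℕ) (x : C.ι k × Fin d → A), (∀ p, t ≤ lev p.2 → x p = 0) →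
      (show (twc s C).ι k → A from x) ∈ cyc (twc s C) φ k →
      ∃ y : C.ι (k + 1) × Fin d → A, y ᵥ* E k = x := by
    intro t
    induction t with
    | zero =>
      intro x hx _
      refine ⟨0, ?_⟩
      rw [Matrix.zero_vecMul]
      funext p
      exact (hx p (Nat.zero_le _)).symm
    | succ t ih =>
      intro x hx hc
      have hx' : ∀ p, t < lev p.2 → x p = 0 := fun p hpt => hx p hpt
      obtain ⟨y, hy⟩ := h' _ (hp t x hx' hc)
      have hy1 : ∀ p, t < lev p.2 → part lev t y p = 0 := by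
        intro p hpt
        rw [part, if_neg (by omega)]
      have hpp : ∀ (z : C.ι k × Fin d → A), part lev t (part lev t z) = part lev t z := by
        intro z
        funext p
        simp only [part]
        split_ifs <;> rfl
      have hpp' : ∀ (z : C.ι (k + 1) × Fin d → A), part lev t (part lev t z) = part lev t z := by
        intro z
        funext p
        simp only [part]
        split_ifs <;> rfl
      have hy2 : part lev t y ᵥ* E0 k = part lev t x := by
        rw [part_vec0 lev t (E0 k) (e3 k), hy, hpp]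
      have hy3 : part lev t (part lev t y ᵥ* E k) = part lev t x := by
        rw [← part_vec lev t (E k) (E0 k) (e1 k) (e2 k) (e3 k) _ hy1, hpp', hy2]
      obtain ⟨w, hw⟩ := ih (x - part lev t y ᵥ* E k) (by
        intro q hq
        rw [Pi.sub_apply]
        rcases Nat.eq_or_lt_of_le hq with hq' | hq'
        · have h4 := congrFun hy3 q
          have h5 : ∀ z : C.ι k × Fin d → A, part lev t z q = z q := fun z => if_pos hq'.symm
          rw [h5, h5] at h4
          rw [h4, sub_self]
        · rw [hx' q hq', vec_zero lev t (E k) (e1 k) _ hy1 q hq', sub_self]) (by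
        exact Submodule.sub_mem _ hc (bd_mem (twc s C) φ k (part lev t y)))
      refine ⟨w + part lev t y, ?_⟩
      rw [Matrix.add_vecMul, hw, sub_add_cancel]
  intro (x : C.ι k × Fin d → A) hx
  exact key ((∑ a, lev a) + 1) x (fun p hpt => by
    have := Finset.single_le_sum (f := lev) (fun i _ => Nat.zero_le _) (Finset.mem_univ p.2)
    omega) hx

end

end Pool.Agent.V5helper81.ZN
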